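import Pool.Agent.V11273.GH.A1
import Pool.Agent.Y123.GN.E7

/-!
# The identity components of the Galois groups, all heights
-/

set_option autoImplicit false
set_option linter.unusedSectionVars false

open Matrix Module PowerSeries Filter

namespace Pool.Agent.V11273.GH

open Pool.Agent.TH127.PT Pool.Agent.Y123.ST Pool.Agent.Y123.SR Pool.Agent.Y113 Pool.Agent.Y113.GG Pool.Agent.Y120.R
  Pool.Agent.Y123.GN Pool.Agent.V11273.PV

/-- relations over all number fields of bounded degree hold on the orbit of the identity component -/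
theorem rl_idc {M : Type} [Fintype M] [DecidableEq M] {𝒢 : Subgroup (GL M ℂ)} {c : Matrix M M ℂ}
    {D d : ℕ} (hrel : ∀ g ∈ 𝒢, Rl ⊥ (d * D ^ D) c (g * c)) {K : Subfield ℂ} (hf : FiniteDimensional ℚ K)
    (hD : finrank ℚ K ≤ D) {g : GL M ℂ} (hg : g ∈ IdComp 𝒢) : Rl K d c (g * c) := by
  obtain ⟨H₀, hfi, hcl, hmin, hirr⟩ := exists_idc 𝒢
  obtain ⟨hgG, hg'⟩ := hg
  have hg0 : (⟨g, hgG⟩ : 𝒢) ∈ H₀ := hg' H₀ hfi hcl
  let S : Set (M × M → ℂ) := {z | ∃ h ∈ H₀, z = fl (((h : GL M ℂ) : Matrix M M ℂ) * c)}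
  have hev : ∀ (X : Matrix M M ℂ) (p : MvPolynomial (M × M) ℂ), MvPolynomial.eval (fl X) p = me X p := fun X p => rfl
  have hcS : fl c ∈ S := by
    refine ⟨1, H₀.one_mem, ?_⟩
    rw [Subgroup.coe_one, Units.val_one, Matrix.one_mul]
  have hirrS : ∀ p q : MvPolynomial (M × M) ℂ, (∀ z ∈ S, MvPolynomial.eval z (p * q) = 0) →
      (∀ z ∈ S, MvPolynomial.eval z p = 0) ∨ ∀ z ∈ S, MvPolynomial.eval z q = 0 := by
    intro p q hpq
    rcases hirr (rtr c p) (rtr c q) (fun h hh => by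
      rw [← map_mul, me_rtr, ← hev]
      exact hpq _ ⟨h, hh, rfl⟩) with h1 | h1
    · left
      rintro _ ⟨h, hh, rfl⟩
      rw [hev, ← me_rtr]
      exact h1 h hh
    · right
      rintro _ ⟨h, hh, rfl⟩
      rw [hev, ← me_rtr]
      exact h1 h hh
  have key := relV_desc (K := K) (D := D) (d := d) hcS hirrS hf hD (by
    rintro _ ⟨h, hh, rfl⟩ P hP hPd h0
    exact hrel h h.2 P hP hPd h0)
  intro P hP hPd h0
  exact key _ ⟨⟨g, hgG⟩, hg0, rfl⟩ P hP hPd h0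

section blocks

variable {B₀ : Type} [Fintype B₀] [DecidableEq B₀] {k : ℕ} {n : Fin k → ℕ}

/-- products of elements of the identity components -/
theorem idComp_em {𝒢 : ∀ i, Subgroup (Matrix (Fin (n i)) (Fin (n i)) ℂ)ˣ}
    {w : ∀ i, (Matrix (Fin (n i)) (Fin (n i)) ℂ)ˣ} (hw : ∀ i, w i ∈ IdComp (𝒢 i)) :
    EGu B₀ n w ∈ IdComp (GG B₀ 𝒢) := by
  classical
  have hwG : ∀ i, w i ∈ 𝒢 i := fun i => (hw i).1
  have hmemG : EGu B₀ n w ∈ GG B₀ 𝒢 := ⟨w, fun i _ => hwG i, rfl⟩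
  refine ⟨hmemG, fun H hH hcl => ?_⟩
  obtain ⟨E, hE⟩ := hcl
  let e : ∀ i, 𝒢 i →* GG B₀ 𝒢 := fun i =>
    { toFun := fun h => ⟨em B₀ i h, em_mem h.2⟩
      map_one' := by
        apply Subtype.ext
        simp only [Subgroup.coe_one, map_one]
      map_mul' := by
        intro a b
        apply Subtype.ext
        simp only [Subgroup.coe_mul, map_mul] }
  have hmem : ∀ i, (⟨w i, hwG i⟩ : 𝒢 i) ∈ H.comap (e i) := by
    intro i
    obtain ⟨hi, hi'⟩ := hw i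
    refine hi' _ ?_ ?_
    · rw [Subgroup.finiteIndex_iff, Subgroup.index_comap]
      exact (Subgroup.isFiniteRelIndex_of_finiteIndex (H := H) (K := (e i).range)).relIndex_ne_zero
    · let gen : Matrix (IG B₀ n) (IG B₀ n) (MvPolynomial (Fin (n i) × Fin (n i)) ℂ) :=
        Matrix.fromBlocks 1 0 0 (Matrix.blockDiagonal' (Function.update
          (fun l => (1 : Matrix (Fin (n l)) (Fin (n l)) (MvPolynomial (Fin (n i) × Fin (n i)) ℂ))) i
          (Matrix.of fun a b => MvPolynomial.X (a, b))))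
      have hgen : ∀ h : 𝒢 i, (((e i h : GG B₀ 𝒢) : (Matrix (IG B₀ n) (IG B₀ n) ℂ)ˣ) : Matrix (IG B₀ n) (IG B₀ n) ℂ) =
          gen.map (MvPolynomial.aeval (fun v => ((h : (Matrix (Fin (n i)) (Fin (n i)) ℂ)ˣ) :
            Matrix (Fin (n i)) (Fin (n i)) ℂ) v.1 v.2)) := by
        intro h
        refine (em_val i (h : (Matrix (Fin (n i)) (Fin (n i)) ℂ)ˣ)).trans ?_
        rw [Matrix.fromBlocks_map, Matrix.blockDiagonal'_map _ _ (map_zero _)]
        unfold EG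
        congr 1
        · rw [Matrix.map_one _ (map_zero _) (map_one _)]
        · congr 1
          funext l
          by_cases hl : l = i
          · subst hl
            rw [Function.update_self, Pi.mulSingle_eq_same]
            ext a b
            rw [Matrix.map_apply, Matrix.of_apply, MvPolynomial.aeval_X]
          · rw [Function.update_of_ne hl, Pi.mulSingle_eq_of_ne hl, Matrix.map_one _ (map_zero _) (map_one _)]
      let vars : IG B₀ n × IG B₀ n → MvPolynomial (Fin (n i) × Fin (n i)) ℂ := fun v => gen v.1 v.2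
      have hvars : ∀ (h : 𝒢 i) (q : MvPolynomial (IG B₀ n × IG B₀ n) ℂ),
          MvPolynomial.eval (fun v => ((h : (Matrix (Fin (n i)) (Fin (n i)) ℂ)ˣ) : Matrix (Fin (n i)) (Fin (n i)) ℂ) v.1 v.2)
            (MvPolynomial.bind₁ vars q) =
            MvPolynomial.eval (fun v => (((e i h : GG B₀ 𝒢) : (Matrix (IG B₀ n) (IG B₀ n) ℂ)ˣ) :
              Matrix (IG B₀ n) (IG B₀ n) ℂ) v.1 v.2) q := by
        intro h q
        rw [← MvPolynomial.coe_aeval_eq_eval, ← MvPolynomial.coe_aeval_eq_eval, RingHom.coe_coe, RingHom.coe_coe,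
          MvPolynomial.aeval_bind₁]
        congr 2
        funext v
        rw [hgen]
        rfl
      refine ⟨(MvPolynomial.bind₁ vars) '' E, fun h => ?_⟩
      rw [Subgroup.mem_comap, hE]
      constructor
      · rintro h1 _ ⟨q, hq, rfl⟩
        rw [hvars]
        exact h1 q hq
      · intro h1 q hq
        rw [← hvars]
        exact h1 _ ⟨q, hq, rfl⟩
  have h1 : w ∈ (H.map (GG B₀ 𝒢).subtype).comap (EGu B₀ n) := by
    refine Subgroup.pi_mem_of_mulSingle_mem w fun i => ?_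
    rw [Subgroup.mem_comap, Subgroup.mem_map]
    exact ⟨e i ⟨w i, hwG i⟩, hmem i, rfl⟩
  rw [Subgroup.mem_comap, Subgroup.mem_map] at h1
  obtain ⟨y, hy, hy'⟩ := h1
  have h2 : y = ⟨EGu B₀ n w, hmemG⟩ := Subtype.ext hy'
  rw [← h2]
  exact hy

/-- **All relations over `ℚ` of bounded degree are relations of the orbit of the Galois groups.** -/
theorem rel_main (k d e r : ℕ) (ρ n : Fin k → ℕ) (h : ∀ i, Fin (ρ i) → ℚ⟦X⟧) (hF : ∀ i δ, Fam δ (h i)) :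
    ∃ c C : ℝ, 0 < c ∧ 0 ≤ C ∧ ∀ P : ∀ i, Fin (n i) → Fin (n i) → MvPolynomial (Option (Fin (ρ i))) ℂ,
    (∀ i a b, (P i a b).totalDegree ≤ e) → ∀ C₀ : Matrix (Fin r) (Fin r) ℂ, ∀ (x : Fin k → ℕ) (N : ℕ), 1 ≤ N →
    ∀ S : Finset (Fin k → ℕ), (∀ t ∈ S, (∀ i, x i < t i ∧ t i ≤ x i + N) ∧
      ¬ ∀ g : ∀ i, (Matrix (Fin (n i)) (Fin (n i)) ℂ)ˣ, (∀ i, g i ∈ Gs (h i) (P i)) →
        Rl ⊥ d (EG C₀ fun i => pM (h i) (P i) (t i : ℝ)) (EG 1 (fun i => (g i : Matrix (Fin (n i)) (Fin (n i)) ℂ)) *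
          EG C₀ fun i => pM (h i) (P i) (t i : ℝ))) →
    (S.card : ℝ) ≤ C * (N : ℝ) ^ (k - 1) * ∑ i, (1 + N / ((x i : ℝ) + N) ^ c) := by
  classical
  obtain ⟨c, C, hc, hC, hmain⟩ := gx (ν := fun i => Fin (n i) × Fin (n i)) (h := h) d e
    ((1 + r * r + 1) ^ (d + 1)) (fun i => hF i _)
  refine ⟨c, C, hc, hC, ?_⟩
  intro P hP C₀ x N hN S hS
  obtain ⟨hbf, hb1⟩ := bot_fin
  obtain ⟨W, hW1, hW2, hKW, hW3⟩ := exists_W' (⊥ : Subfield ℂ) (fun b : Fin r × Fin r => C₀ b.1 b.2)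
  obtain ⟨hp1, hp2⟩ := finrank_pow_le W (d + 1)
  have hWD : Module.finrank ℚ W ≤ 1 + r * r + 1 := by
    refine hW2.trans ?_
    rw [Fintype.card_prod, Fintype.card_fin]
    omega
  have h1W : (1 : ℂ) ∈ W := hKW 1 (⊥ : Subfield ℂ).one_mem
  refine hmain (fun i v => P i v.1 v.2) (fun i v => hP i v.1 v.2) (W ^ (d + 1)) (hp2.trans (Nat.pow_le_pow_left hWD _))
    x N hN S fun t ht => ?_
  obtain ⟨hbox, hnot⟩ := hS t ht
  refine ⟨hbox, ?_⟩
  by_contra hcon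
  apply hnot
  have hval : ∀ i (g : Matrix (Fin (n i)) (Fin (n i)) ℂ) (v : Fin (n i) × Fin (n i)),
      MvPolynomial.aeval (p1 (h i) (t i : ℝ)) (tl (P i) g v) = (g * pM (h i) (P i) (t i : ℝ)) v.1 v.2 := fun i g v =>
    tl_eval (h i) (P i) g _ v
  have hrel : ∀ g : ∀ i, (Matrix (Fin (n i)) (Fin (n i)) ℂ)ˣ, (∀ i, g i ∈ Gs (h i) (P i)) →
      ∀ F : MvPolynomial (Σ i, Fin (n i) × Fin (n i)) ℂ, F.totalDegree ≤ d → (∀ s, F.coeff s ∈ W ^ (d + 1)) →
      MvPolynomial.aeval (fun v : Σ i, Fin (n i) × Fin (n i) => pM (h v.1) (P v.1) (t v.1 : ℝ) v.2.1 v.2.2) F = 0 →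
      MvPolynomial.aeval (fun v : Σ i, Fin (n i) × Fin (n i) =>
        ((g v.1 : Matrix (Fin (n v.1)) (Fin (n v.1)) ℂ) * pM (h v.1) (P v.1) (t v.1 : ℝ)) v.2.1 v.2.2) F = 0 := by
    intro g hg F hFd hFV hF0
    by_contra hne
    refine hcon ⟨F, hFd, hFV, ?_, fun i => tl (P i) (g i), fun i => Prs_sat (hg i).1, ?_⟩
    · rw [MvPolynomial.aeval_eq_eval] at hF0
      exact hF0
    · intro h2
      apply hne
      rw [MvPolynomial.aeval_eq_eval]
      refine Eq.trans ?_ h2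
      congr 2
      funext v
      exact (hval v.1 (g v.1) v.2).symm
  intro g hg
  refine Rl_of hKW (PhiG_DC h1W fun a b => hW3 (a, b))
    (y := fun v : Σ i, Fin (n i) × Fin (n i) => pM (h v.1) (P v.1) (t v.1 : ℝ) v.2.1 v.2.2)
    (y' := fun v : Σ i, Fin (n i) × Fin (n i) =>
      ((g v.1 : Matrix (Fin (n v.1)) (Fin (n v.1)) ℂ) * pM (h v.1) (P v.1) (t v.1 : ℝ)) v.2.1 v.2.2)
    (fun F h2 h3 h4 => hrel g hg F h2 h3 h4) (fun b => PhiG_eval C₀ _ b) fun b => ?_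
  rw [EG_mul, Matrix.one_mul]
  exact PhiG_eval C₀ _ b

/-- the conclusion: all relations of degree at most `D` over all number fields of degree at most `D` -/
def GoodI {r : Fin k → ℕ} (D : ℕ) (C₀ : Matrix B₀ B₀ ℂ) (h : ∀ i, Fin (r i) → ℚ⟦X⟧)
    (P : ∀ i, Fin (n i) → Fin (n i) → MvPolynomial (Option (Fin (r i))) ℂ) (t : Fin k → ℕ) : Prop :=
  ∀ K : Subfield ℂ, FiniteDimensional ℚ K → finrank ℚ K ≤ D → ∀ g : ∀ i, (Matrix (Fin (n i)) (Fin (n i)) ℂ)ˣ,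
    (∀ i, g i ∈ IdComp (Gs (h i) (P i))) →
      Rl K D (EG C₀ fun i => pM (h i) (P i) (t i : ℝ)) (EG 1 (fun i => (g i : Matrix (Fin (n i)) (Fin (n i)) ℂ)) *
        EG C₀ fun i => pM (h i) (P i) (t i : ℝ))

/-- **The counting theorem for all Galois groups and all number fields of degree at most `D` at once.** -/
theorem idc_main (k D e r : ℕ) (ρ n : Fin k → ℕ) (h : ∀ i, Fin (ρ i) → ℚ⟦X⟧) (hF : ∀ i δ, Fam δ (h i)) :
    ∃ c C : ℝ, 0 < c ∧ 0 ≤ C ∧ ∀ P : ∀ i, Fin (n i) → Fin (n i) → MvPolynomial (Option (Fin (ρ i))) ℂ,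
    (∀ i a b, (P i a b).totalDegree ≤ e) → ∀ C₀ : Matrix (Fin r) (Fin r) ℂ, ∀ (x : Fin k → ℕ) (N : ℕ), 1 ≤ N →
    ∀ S : Finset (Fin k → ℕ), (∀ t ∈ S, (∀ i, x i < t i ∧ t i ≤ x i + N) ∧ ¬ GoodI D C₀ h P t) →
    (S.card : ℝ) ≤ C * (N : ℝ) ^ (k - 1) * ∑ i, (1 + N / ((x i : ℝ) + N) ^ c) := by
  obtain ⟨c, C, hc, hC, hmain⟩ := rel_main k (D * D ^ D) e r ρ n h hF
  refine ⟨c, C, hc, hC, fun P hP C₀ x N hN S hS => hmain P hP C₀ x N hN S fun t ht => ⟨(hS t ht).1, fun hrel => ?_⟩⟩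
  refine (hS t ht).2 fun K hKf hKD g hg => ?_
  have h1 := rl_idc (𝒢 := GG (Fin r) fun i => Gs (h i) (P i)) (c := EG C₀ fun i => pM (h i) (P i) (t i : ℝ))
    (D := D) (d := D) (by
      rintro _ ⟨g', hg', rfl⟩
      exact hrel g' fun i => hg' i (Set.mem_univ i)) hKf hKD (idComp_em hg)
  exact h1

end blocks

end Pool.Agent.V11273.GH
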