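import Pool.Agent.Y123.GN.E2
import Pool.Agent.V11273.PV.G4

/-!
# Descent of relations on irreducible sets: from rational coefficients to all number fields of bounded degree
-/

set_option autoImplicit false
set_option linter.unusedSectionVars false

open Matrix Module

namespace Pool.Agent.V11273.GH

open Pool.Agent.TH127.PT Pool.Agent.Y123.ST Pool.Agent.TH119.DR Pool.Agent.Y123.GN Pool.Agent.V11273.PV

section galois

variable {V : Type} {L : IntermediateField ℚ ℂ}

/-- a finite product which vanishes on an irreducible set -/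
theorem irr_prod {c : V → ℂ} {S : Set (V → ℂ)} (hc : c ∈ S)
    (hirr : ∀ p q : MvPolynomial V ℂ, (∀ z ∈ S, MvPolynomial.eval z (p * q) = 0) →
      (∀ z ∈ S, MvPolynomial.eval z p = 0) ∨ ∀ z ∈ S, MvPolynomial.eval z q = 0)
    {ι : Type} [DecidableEq ι] (p : ι → MvPolynomial V ℂ) (s : Finset ι) :
    (∀ z ∈ S, MvPolynomial.eval z (∏ i ∈ s, p i) = 0) → ∃ i ∈ s, ∀ z ∈ S, MvPolynomial.eval z (p i) = 0 := by
  induction s using Finset.induction_on with
  | empty =>
    intro h
    have h1 := h c hc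
    rw [Finset.prod_empty, map_one] at h1
    exact absurd h1 one_ne_zero
  | insert i s hi ih =>
    intro h
    rw [Finset.prod_insert hi] at h
    rcases hirr _ _ h with h1 | h1
    · exact ⟨i, Finset.mem_insert_self _ _, h1⟩
    · obtain ⟨j, hj, hj'⟩ := ih h1
      exact ⟨j, Finset.mem_insert_of_mem hj, hj'⟩

theorem aeval_map_eval (z : V → ℂ) (P : MvPolynomial V L) :
    MvPolynomial.aeval z P = MvPolynomial.eval z (MvPolynomial.map (algebraMap L ℂ) P) := by
  rw [MvPolynomial.eval_map, MvPolynomial.aeval_def]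

/-- **Descent.** -/
theorem desc_irr [IsGalois ℚ L] [FiniteDimensional ℚ L] {d : ℕ} {c : V → ℂ} {S : Set (V → ℂ)} (hc : c ∈ S)
    (hirr : ∀ p q : MvPolynomial V ℂ, (∀ z ∈ S, MvPolynomial.eval z (p * q) = 0) →
      (∀ z ∈ S, MvPolynomial.eval z p = 0) ∨ ∀ z ∈ S, MvPolynomial.eval z q = 0)
    (hrel : ∀ P : MvPolynomial V ℚ, P.totalDegree ≤ d * finrank ℚ L →
      MvPolynomial.aeval c P = 0 → ∀ z ∈ S, MvPolynomial.aeval z P = 0) :
    ∀ P : MvPolynomial V L, P.totalDegree ≤ d → MvPolynomial.aeval c P = 0 → ∀ z ∈ S, MvPolynomial.aeval z P = 0 := by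
  classical
  -- the relations
  let I : Submodule ℚ (MvPolynomial V L) :=
    { carrier := {P | P.totalDegree ≤ d ∧ MvPolynomial.aeval c P = 0}
      zero_mem' := by
        refine ⟨?_, ?_⟩
        · rw [MvPolynomial.totalDegree_zero]
          exact Nat.zero_le d
        · rw [map_zero]
      add_mem' := by
        rintro P Q ⟨h1, h2⟩ ⟨h3, h4⟩
        refine ⟨(MvPolynomial.totalDegree_add _ _).trans (max_le h1 h3), ?_⟩
        rw [map_add, h2, h4, add_zero]
      smul_mem' := by
        rintro q P ⟨h1, h2⟩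
        refine ⟨(MvPolynomial.totalDegree_smul_le _ _).trans h1, ?_⟩
        have h3 : q • P = algebraMap ℚ (MvPolynomial V L) q * P := Algebra.smul_def q P
        have h4 : algebraMap ℚ (MvPolynomial V L) q = MvPolynomial.C (algebraMap ℚ L q) := rfl
        rw [h3, h4, map_mul, h2, mul_zero] }
  let A : (L ≃ₐ[ℚ] L) → MvPolynomial V L →ₗ[ℚ] (S → ℂ) := fun σ =>
    LinearMap.pi fun z => ((MvPolynomial.aeval (R := L) (z : V → ℂ)).restrictScalars ℚ).toLinearMap ∘ₗ (mpa V σ).toLinearMap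
  have hA : ∀ σ P z, A σ P z = MvPolynomial.aeval (z : V → ℂ) (mpa V σ P) := fun σ P z => rfl
  have hcover : ∀ P ∈ I, ∃ σ : L ≃ₐ[ℚ] L, A σ P = 0 := by
    intro P hPI
    set N : MvPolynomial V L := ∏ σ : L ≃ₐ[ℚ] L, mpa V σ P with hN
    have hfix : ∀ τ : L ≃ₐ[ℚ] L, mpa V τ N = N := by
      intro τ
      rw [hN, map_prod]
      refine Fintype.prod_bijective (fun σ => τ * σ) (Group.mulLeft_bijective τ) _ _ fun σ => ?_
      rw [mpa_mul]
    have hco : ∀ m, N.coeff m ∈ Set.range (algebraMap ℚ L) := by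
      intro m
      rw [IsGalois.mem_range_algebraMap_iff_fixed]
      intro τ
      rw [← mpa_coeff, hfix]
    obtain ⟨N₀, hN₀⟩ : N ∈ Set.range (MvPolynomial.map (algebraMap ℚ L)) := by
      rw [MvPolynomial.mem_range_map_iff_coeffs_subset]
      intro z hz
      rw [Finset.mem_coe, MvPolynomial.mem_coeffs_iff] at hz
      obtain ⟨m, -, rfl⟩ := hz
      exact hco m
    have hdeg : N.totalDegree ≤ d * finrank ℚ L := by
      rw [hN]
      refine (MvPolynomial.totalDegree_finsetProd _ _).trans ?_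
      refine (Finset.sum_le_card_nsmul _ _ d fun σ _ => (mpa_deg σ _).trans hPI.1).trans ?_
      rw [Finset.card_univ, ← Nat.card_eq_fintype_card, IsGalois.card_aut_eq_finrank, smul_eq_mul, mul_comm]
    have hdeg0 : N₀.totalDegree ≤ d * finrank ℚ L := by
      refine le_trans (Finset.sup_mono ?_) hdeg
      intro m hm
      rw [MvPolynomial.mem_support_iff] at hm ⊢
      rw [← hN₀, MvPolynomial.coeff_map]
      intro h
      exact hm ((map_eq_zero _).1 h)
    have hae : ∀ z : V → ℂ, MvPolynomial.aeval z N = MvPolynomial.aeval z N₀ := by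
      intro z
      rw [← hN₀, MvPolynomial.aeval_map_algebraMap]
    have hprod : ∀ z : V → ℂ, MvPolynomial.aeval z N = ∏ σ : L ≃ₐ[ℚ] L, MvPolynomial.aeval z (mpa V σ P) := by
      intro z
      rw [hN, map_prod]
    have h0 : MvPolynomial.aeval c N₀ = 0 := by
      rw [← hae, hprod]
      refine Finset.prod_eq_zero (Finset.mem_univ 1) ?_
      rw [mpa_one]
      exact hPI.2
    have h1 := hrel N₀ hdeg0 h0
    obtain ⟨σ, -, hσ⟩ := irr_prod hc hirr (fun σ : L ≃ₐ[ℚ] L => MvPolynomial.map (algebraMap L ℂ) (mpa V σ P))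
      Finset.univ (fun z hz => by
        rw [map_prod, ← h1 z hz, ← hae, hprod]
        exact Finset.prod_congr rfl fun σ _ => (aeval_map_eval z _).symm)
    refine ⟨σ, funext fun z => ?_⟩
    rw [hA, aeval_map_eval]
    exact hσ z z.2
  obtain ⟨σ, hσ⟩ := cov_sub' I A hcover
  have hker : ∀ P ∈ I, ∀ z ∈ S, MvPolynomial.aeval z (mpa V σ P) = 0 := by
    intro P hP z hz
    have h1 := congrFun (hσ P hP) ⟨z, hz⟩
    rw [hA] at h1
    exact h1
  have hstep : ∀ P ∈ I, mpa V σ P ∈ I := by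
    intro P hP
    exact ⟨(mpa_deg σ P).trans hP.1, hker P hP c hc⟩
  have hpow : ∀ (j : ℕ), ∀ P ∈ I, mpa V (σ ^ j) P ∈ I := by
    intro j
    induction j with
    | zero =>
      intro P hP
      rw [pow_zero, mpa_one]
      exact hP
    | succ j ih =>
      intro P hP
      rw [pow_succ', mpa_mul]
      exact hstep _ (ih P hP)
  intro P hPd hP0 z hz
  have hP : P ∈ I := ⟨hPd, hP0⟩
  have hord : 0 < orderOf σ := orderOf_pos σ
  have h1 := hker _ (hpow (orderOf σ - 1) P hP) z hz
  rw [← mpa_mul, ← pow_succ', Nat.sub_add_cancel hord, pow_orderOf_eq_one, mpa_one] at h1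
  exact h1

end galois

/-- every relation over `K` of degree at most `d` at `c` holds at `x` -/
def RelV {V : Type} (K : Subfield ℂ) (d : ℕ) (c x : V → ℂ) : Prop :=
  ∀ P : MvPolynomial V ℂ, (∀ m, P.coeff m ∈ K) → P.totalDegree ≤ d →
    MvPolynomial.eval c P = 0 → MvPolynomial.eval x P = 0

/-- **Descent of relations on irreducible sets.** -/
theorem relV_desc {V : Type} {K : Subfield ℂ} {D d : ℕ} {c : V → ℂ} {S : Set (V → ℂ)} (hc : c ∈ S)
    (hirr : ∀ p q : MvPolynomial V ℂ, (∀ z ∈ S, MvPolynomial.eval z (p * q) = 0) →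
      (∀ z ∈ S, MvPolynomial.eval z p = 0) ∨ ∀ z ∈ S, MvPolynomial.eval z q = 0)
    (hf : FiniteDimensional ℚ K) (hD : finrank ℚ K ≤ D)
    (hrel : ∀ z ∈ S, RelV ⊥ (d * D ^ D) c z) : ∀ z ∈ S, RelV K d c z := by
  obtain ⟨L, hKL, hgal, hfin, hfr⟩ := exists_gal hf hD
  have hQ : ∀ (z : V → ℂ) (P : MvPolynomial V ℚ), MvPolynomial.aeval z P =
      MvPolynomial.eval z (MvPolynomial.map (algebraMap ℚ ℂ) P) := by
    intro z P
    rw [MvPolynomial.eval_map, MvPolynomial.aeval_def]
  have key := desc_irr (d := d) (L := L) hc hirr (by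
    intro P hP h0 z hz
    rw [hQ] at h0 ⊢
    refine hrel z hz (MvPolynomial.map (algebraMap ℚ ℂ) P) (fun m => ?_) ?_ h0
    · rw [MvPolynomial.coeff_map]
      rw [eq_ratCast]
      exact SubfieldClass.ratCast_mem _ _
    · refine (Finset.sup_mono ?_).trans (hP.trans (Nat.mul_le_mul_left d hfr))
      intro m hm
      rw [MvPolynomial.mem_support_iff] at hm ⊢
      intro h
      apply hm
      rw [MvPolynomial.coeff_map, h, map_zero])
  intro z hz P hPK hPd hP0
  obtain ⟨P', rfl⟩ : P ∈ Set.range (MvPolynomial.map (algebraMap L ℂ)) := by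
    rw [MvPolynomial.mem_range_map_iff_coeffs_subset]
    intro z hz
    rw [Finset.mem_coe, MvPolynomial.mem_coeffs_iff] at hz
    obtain ⟨m, -, rfl⟩ := hz
    exact ⟨⟨_, hKL _ (hPK m)⟩, rfl⟩
  rw [← aeval_map_eval]
  refine key P' ?_ ?_ z hz
  · refine (Finset.sup_mono ?_).trans hPd
    intro m hm
    rw [MvPolynomial.mem_support_iff] at hm ⊢
    rw [MvPolynomial.coeff_map]
    intro h
    exact hm ((map_eq_zero _).1 h)
  · rw [aeval_map_eval]
    exact hP0

end Pool.Agent.V11273.GH
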