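import Pool.Agent.V11273.GH.F3
import Pool.Agent.Y123.GN.B4
import Pool.Agent.Y123.GN.E7
import Pool.Agent.Y123.GN.E8

/-!
# De Rham-Betti classes of almost all fibres of families with symplectic Galois groups, all heights
-/

set_option autoImplicit false
set_option linter.unusedSectionVars false

open Matrix Module PowerSeries Filter

namespace Pool.Agent.V11273.GH

open Pool.Agent.TH127.PT Pool.Agent.Y123.ST Pool.Agent.Y123.SR Pool.Agent.Y113 Pool.Agent.Y113.GG Pool.Agent.Y120.R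
  Pool.Agent.Y123.GN

section classes

variable {k : ℕ} {n : Fin k → ℕ} {m : ℕ}

/-- the embedding of the indices -/
def fi (m : ℕ) (v : Fin (2 * m) → Σ i, Fin (n i)) : Fin (2 * m + m) → IG (Fin 1) n :=
  Fin.append (fun s => Sum.inr (v s)) fun _ => Sum.inl 0

theorem fi_inj : Function.Injective (fi (n := n) m) := by
  intro v w h
  funext s
  have h1 := congrFun h (Fin.castAdd m s)
  unfold fi at h1
  rw [Fin.append_left, Fin.append_left] at h1
  exact Sum.inr.inj h1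

/-- the tensor -/
noncomputable def cla (ω : (Fin (2 * m) → Σ i, Fin (n i)) → ℂ) :
    (Fin (2 * m + m) → IG (Fin 1) n) × (Fin 0 → IG (Fin 1) n) → ℂ :=
  fun J => ∑ v, if J.1 = fi m v then ω v else 0

theorem cla_fi (ω : (Fin (2 * m) → Σ i, Fin (n i)) → ℂ) (u : Fin (2 * m) → Σ i, Fin (n i)) (I' : Fin 0 → IG (Fin 1) n) :
    cla ω (fi m u, I') = ω u := by
  classical
  unfold cla
  rw [Finset.sum_eq_single u, if_pos rfl]
  · intro v _ hv
    rw [if_neg fun h => hv (fi_inj h).symm]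
  · intro h
    exact absurd (Finset.mem_univ _) h

theorem cla_mem {K : Subfield ℂ} {ω : (Fin (2 * m) → Σ i, Fin (n i)) → ℂ} (hω : ∀ v, ω v ∈ K)
    (J : (Fin (2 * m + m) → IG (Fin 1) n) × (Fin 0 → IG (Fin 1) n)) : cla ω J ∈ K := by
  classical
  unfold cla
  refine sum_mem fun v _ => ?_
  split_ifs
  · exact hω v
  · exact K.zero_mem

/-- the action on the tensor -/
theorem tn_cla (x : Matrix (IG (Fin 1) n) (IG (Fin 1) n) ℂ) (ω : (Fin (2 * m) → Σ i, Fin (n i)) → ℂ)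
    (I : Fin (2 * m + m) → IG (Fin 1) n) (I' : Fin 0 → IG (Fin 1) n) :
    (tn (2 * m + m) 0 x *ᵥ cla ω) (I, I') = ∑ v, (∏ s, x (I s) (fi m v s)) * ω v := by
  classical
  rw [Matrix.mulVec, dotProduct, Fintype.sum_prod_type]
  have h0 : (Finset.univ : Finset (Fin 0 → IG (Fin 1) n)) = {I'} := by
    ext y
    simp only [Finset.mem_univ, Finset.mem_singleton, true_iff]
    exact Subsingleton.elim _ _
  have h1 : ∀ J : Fin (2 * m + m) → IG (Fin 1) n, ∑ J' : Fin 0 → IG (Fin 1) n,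
      tn (2 * m + m) 0 x (I, I') (J, J') * cla ω (J, J') =
      ∑ v, if J = fi m v then (∏ s, x (I s) (J s)) * ω v else 0 := by
    intro J
    rw [h0, Finset.sum_singleton]
    have h2 : tn (2 * m + m) 0 x (I, I') (J, I') = ∏ s, x (I s) (J s) := by
      unfold tn
      rw [Matrix.of_apply, Fin.prod_univ_zero, mul_one]
    rw [h2]
    unfold cla
    rw [Finset.mul_sum]
    refine Finset.sum_congr rfl fun v _ => ?_
    split_ifs <;> ring
  rw [Finset.sum_congr rfl fun J _ => h1 J, Finset.sum_comm]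
  refine Finset.sum_congr rfl fun v _ => ?_
  rw [Finset.sum_ite_eq' Finset.univ (fi m v), if_pos (Finset.mem_univ _)]

theorem prod_fi (c : ℂ) (Z : ∀ i, Matrix (Fin (n i)) (Fin (n i)) ℂ) (u v : Fin (2 * m) → Σ i, Fin (n i)) :
    ∏ s, EG (Matrix.of fun (_ _ : Fin 1) => c) Z (fi m u s) (fi m v s) =
      (∏ s, Matrix.blockDiagonal' Z (u s) (v s)) * c ^ m := by
  rw [Fin.prod_univ_add]
  congr 1
  · refine Finset.prod_congr rfl fun s _ => ?_
    unfold fi
    rw [Fin.append_left, Fin.append_left]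
    rfl
  · have : ∀ s : Fin m, EG (Matrix.of fun (_ _ : Fin 1) => c) Z (fi m u (Fin.natAdd (2 * m) s))
        (fi m v (Fin.natAdd (2 * m) s)) = c := by
      intro s
      unfold fi
      rw [Fin.append_right, Fin.append_right]
      rfl
    rw [Finset.prod_congr rfl fun s _ => this s, Finset.prod_const, Finset.card_univ, Fintype.card_fin]

theorem prod_out (c : ℂ) (Z : ∀ i, Matrix (Fin (n i)) (Fin (n i)) ℂ) (v : Fin (2 * m) → Σ i, Fin (n i))
    {I : Fin (2 * m + m) → IG (Fin 1) n} (hI : I ∉ Set.range (fi (n := n) m)) :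
    ∏ s, EG (Matrix.of fun (_ _ : Fin 1) => c) Z (I s) (fi m v s) = 0 := by
  by_contra hne
  rw [Finset.prod_eq_zero_iff] at hne
  push Not at hne
  apply hI
  have h1 : ∀ s : Fin (2 * m), ∃ u, I (Fin.castAdd m s) = Sum.inr u := by
    intro s
    have h2 := hne (Fin.castAdd m s) (Finset.mem_univ _)
    unfold fi at h2
    rw [Fin.append_left] at h2
    rcases h3 : I (Fin.castAdd m s) with a | u
    · rw [h3] at h2
      exact absurd rfl h2
    · exact ⟨u, rfl⟩
  have h4 : ∀ s : Fin m, I (Fin.natAdd (2 * m) s) = Sum.inl 0 := by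
    intro s
    have h2 := hne (Fin.natAdd (2 * m) s) (Finset.mem_univ _)
    unfold fi at h2
    rw [Fin.append_right] at h2
    rcases h3 : I (Fin.natAdd (2 * m) s) with a | u
    · rw [Subsingleton.elim a 0]
    · rw [h3] at h2
      exact absurd rfl h2
  choose u hu using h1
  refine ⟨u, ?_⟩
  unfold fi
  funext s
  refine Fin.addCases (fun s => ?_) (fun s => ?_) s
  · rw [Fin.append_left, hu]
  · rw [Fin.append_right, h4]

/-- **classes over all number fields are invariant under the commutator groups** -/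
theorem class_inv {r : Fin k → ℕ} {D : ℕ} {h : ∀ i, Fin (r i) → ℚ⟦X⟧}
    {P : ∀ i, Fin (n i) → Fin (n i) → MvPolynomial (Option (Fin (r i))) ℂ} {t : Fin k → ℕ}
    (hgood : GoodU D (Matrix.of fun (_ _ : Fin 1) => (2 * Real.pi * Complex.I : ℂ)⁻¹) h P t)
    (hunit : ∀ i, IsUnit (pM (h i) (P i) (t i : ℝ)))
    {K : Subfield ℂ} (hKf : FiniteDimensional ℚ K) (hKD : finrank ℚ K ≤ D)
    {ω : (Fin (2 * m) → Σ i, Fin (n i)) → ℂ} (hω : ∀ v, ω v ∈ K) {γ : (Fin (2 * m) → Σ i, Fin (n i)) → ℚ}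
    (hrel : ∀ I, ∑ J, (∏ p, Matrix.blockDiagonal' (fun i => pM (h i) (P i) (t i : ℝ)) (I p) (J p)) * ω J =
      (2 * Real.pi * Complex.I) ^ m * (γ I : ℂ))
    {g : ∀ i, (Matrix (Fin (n i)) (Fin (n i)) ℂ)ˣ} (hg : ∀ i, g i ∈ ⁅Ug (Gs (h i) (P i)), Ug (Gs (h i) (P i))⁆)
    (I : Fin (2 * m) → Σ i, Fin (n i)) :
    ∑ J, (∏ p, Matrix.blockDiagonal' (fun i => (g i : Matrix (Fin (n i)) (Fin (n i)) ℂ)) (I p) (J p)) * (γ J : ℂ) = γ I := by
  classical
  set π' : ℂ := 2 * Real.pi * Complex.I with hπ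
  have hπ0 : π' ≠ 0 := by
    rw [hπ]
    exact Complex.two_pi_I_ne_zero
  set Z : ∀ i, Matrix (Fin (n i)) (Fin (n i)) ℂ := fun i => pM (h i) (P i) (t i : ℝ) with hZ
  let a := cla (n := n) (m := m) ω
  let b := cla (n := n) (m := m) fun v => (γ v : ℂ)
  have hγK : ∀ v, (γ v : ℂ) ∈ K := fun v => SubfieldClass.ratCast_mem _ _
  have hT := class_sub (K := K) a b (cla_mem hω) (cla_mem hγK)
  have hcu : IsUnit (EG (Matrix.of fun (_ _ : Fin 1) => π'⁻¹) Z) := by
    refine EG_isUnit ?_ hunit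
    rw [Matrix.isUnit_iff_isUnit_det, Matrix.det_fin_one, Matrix.of_apply]
    exact isUnit_iff_ne_zero.2 (inv_ne_zero hπ0)
  have hcT : EG (Matrix.of fun (_ _ : Fin 1) => π'⁻¹) Z ∈
      {x : Matrix (IG (Fin 1) n) (IG (Fin 1) n) ℂ | IsUnit x ∧ tn (2 * m + m) 0 x *ᵥ a = b} := by
    refine ⟨hcu, ?_⟩
    funext ⟨I, I'⟩
    show (tn (2 * m + m) 0 _ *ᵥ cla ω) (I, I') = cla (fun v => (γ v : ℂ)) (I, I')
    rw [tn_cla]
    by_cases hI : I ∈ Set.range (fi (n := n) m)
    · obtain ⟨u, rfl⟩ := hI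
      rw [cla_fi]
      have h1 : ∀ v, (∏ s, EG (Matrix.of fun (_ _ : Fin 1) => π'⁻¹) Z (fi m u s) (fi m v s)) * ω v =
          π'⁻¹ ^ m * ((∏ p, Matrix.blockDiagonal' Z (u p) (v p)) * ω v) := by
        intro v
        rw [prod_fi]
        ring
      rw [Finset.sum_congr rfl fun v _ => h1 v, ← Finset.mul_sum, hrel u, ← mul_assoc, ← mul_pow, inv_mul_cancel₀ hπ0,
        one_pow, one_mul]
    · rw [Finset.sum_eq_zero fun v _ => by rw [prod_out _ _ v hI, zero_mul]]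
      symm
      unfold cla
      refine Finset.sum_eq_zero fun v _ => ?_
      rw [if_neg fun h => hI ⟨v, h.symm⟩]
  have h1 := hgood K hKf hKD _ hT hcT g hg _ hcT
  have h2 := h1.2
  rw [tn_mul, ← mulVec_mulVec, hcT.2] at h2
  have h3 := congrFun h2 (fi m I, Fin.elim0)
  have h4 : b (fi m I, Fin.elim0) = (γ I : ℂ) := cla_fi _ _ _
  rw [h4] at h3
  refine Eq.trans ?_ h3
  have h5 : (tn (2 * m + m) 0 (EG 1 fun i => (g i : Matrix (Fin (n i)) (Fin (n i)) ℂ)) *ᵥ b) (fi m I, Fin.elim0) =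
      ∑ v, (∏ s, (EG 1 fun i => (g i : Matrix (Fin (n i)) (Fin (n i)) ℂ)) (fi m I s) (fi m v s)) * (γ v : ℂ) :=
    tn_cla _ _ _ _
  rw [h5]
  refine Finset.sum_congr rfl fun v _ => ?_
  have h6 : (1 : Matrix (Fin 1) (Fin 1) ℂ) = Matrix.of fun (_ _ : Fin 1) => (1 : ℂ) := by
    ext a b
    rw [Subsingleton.elim a b, Matrix.one_apply_eq, Matrix.of_apply]
  rw [h6, prod_fi, one_pow, mul_one]

end classes

end Pool.Agent.V11273.GH
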