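import Pool.Agent.V11273.GH.B1

/-!
# The symplectic case
-/

set_option autoImplicit false
set_option linter.unusedSectionVars false

open Matrix Module PowerSeries Filter

namespace Pool.Agent.V11273.GH

open Pool.Agent.TH127.PT Pool.Agent.Y123.ST Pool.Agent.Y123.SR Pool.Agent.Y113 Pool.Agent.Y113.GG Pool.Agent.Y120.R
  Pool.Agent.Y123.GN

/-- the standard symplectic form on `Fin (g + g)` -/
noncomputable def Jn (Ω : Type) [Field Ω] (g : ℕ) : Matrix (Fin (g + g)) (Fin (g + g)) Ω :=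
  Matrix.reindex finSumFinEquiv finSumFinEquiv (Matrix.J (Fin g) Ω)

theorem Jn_skew (g : ℕ) : (Jn ℂ g)ᵀ = -Jn ℂ g := by
  unfold Jn
  rw [Matrix.transpose_reindex, Matrix.J_transpose]
  rfl

theorem Jn_det (g : ℕ) : (Jn ℂ g).det ≠ 0 := by
  unfold Jn
  rw [Matrix.det_reindex_self]
  exact (Matrix.isUnit_det_J (Fin g) ℂ).ne_zero

theorem ru_det {l : Type} [Fintype l] [DecidableEq l] (u : l ⊕ l → ℂ) (t : ℂ) :
    ((ru u t : GL (l ⊕ l) ℂ) : Matrix (l ⊕ l) (l ⊕ l) ℂ).det = 1 := by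
  have h1 : ((ru u (2⁻¹ * t) : GL (l ⊕ l) ℂ) : Matrix (l ⊕ l) (l ⊕ l) ℂ) * Matrix.J l ℂ *
      ((ru u (2⁻¹ * t) : GL (l ⊕ l) ℂ) : Matrix (l ⊕ l) (l ⊕ l) ℂ)ᵀ = Matrix.J l ℂ :=
    SymplecticGroup.mem_iff.1 (rank_one_sp u (2⁻¹ * t))
  have h2 := congrArg Matrix.det h1
  rw [Matrix.det_mul, Matrix.det_mul, Matrix.det_transpose] at h2
  have h3 := (Matrix.isUnit_det_J l ℂ).ne_zero
  have h4 : ru u (2⁻¹ * t) ^ 2 = ru u t := by
    rw [ru_pow]
    congr 1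
    push_cast
    rw [← mul_assoc, mul_inv_cancel₀ two_ne_zero, one_mul]
  rw [← h4, Units.val_pow_eq_pow_val, Matrix.det_pow]
  have h5 : (((ru u (2⁻¹ * t) : GL (l ⊕ l) ℂ) : Matrix (l ⊕ l) (l ⊕ l) ℂ).det ^ 2 - 1) * (Matrix.J l ℂ).det = 0 := by
    linear_combination h2
  exact sub_eq_zero.1 ((mul_eq_zero.1 h5).resolve_right h3)

section symplectic

variable {k : ℕ} {g : Fin k → ℕ}

/-- identification of the indices -/
def eqv (g : Fin k → ℕ) : RR (fun i => Fin (g i)) ≃ Σ i, Fin (g i + g i) := Equiv.sigmaCongrRight fun _ => finSumFinEquiv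

theorem bd_eqv {Ω : Type} [Zero Ω] (M : ∀ i, Matrix (Fin (g i) ⊕ Fin (g i)) (Fin (g i) ⊕ Fin (g i)) Ω)
    (x y : RR fun i => Fin (g i)) :
    Matrix.blockDiagonal' (fun i => Matrix.reindex finSumFinEquiv finSumFinEquiv (M i)) (eqv g x) (eqv g y) =
      Matrix.blockDiagonal' M x y := by
  obtain ⟨i, a⟩ := x
  obtain ⟨j, b⟩ := y
  by_cases h : i = j
  · subst h
    show Matrix.blockDiagonal' (fun i => Matrix.reindex finSumFinEquiv finSumFinEquiv (M i)) ⟨i, finSumFinEquiv a⟩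
      ⟨i, finSumFinEquiv b⟩ = _
    rw [Matrix.blockDiagonal'_apply_eq, Matrix.blockDiagonal'_apply_eq, Matrix.reindex_apply, Matrix.submatrix_apply,
      Equiv.symm_apply_apply, Equiv.symm_apply_apply]
  · show Matrix.blockDiagonal' (fun i => Matrix.reindex finSumFinEquiv finSumFinEquiv (M i)) ⟨i, finSumFinEquiv a⟩
      ⟨j, finSumFinEquiv b⟩ = _
    rw [Matrix.blockDiagonal'_apply_ne _ _ _ h, Matrix.blockDiagonal'_apply_ne _ _ _ h]

/-- the reindexed unit -/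
noncomputable def rn {g : ℕ} (u : Fin g ⊕ Fin g → ℂ) (t : ℂ) : (Matrix (Fin (g + g)) (Fin (g + g)) ℂ)ˣ :=
  Units.map (Matrix.reindexAlgEquiv ℂ ℂ (finSumFinEquiv : Fin g ⊕ Fin g ≃ Fin (g + g)) :
    Matrix (Fin g ⊕ Fin g) (Fin g ⊕ Fin g) ℂ →* Matrix (Fin (g + g)) (Fin (g + g)) ℂ) (ru u t)

theorem rn_val {g : ℕ} (u : Fin g ⊕ Fin g → ℂ) (t : ℂ) : ((rn u t : (Matrix (Fin (g + g)) (Fin (g + g)) ℂ)ˣ) :
    Matrix (Fin (g + g)) (Fin (g + g)) ℂ) = Matrix.reindex finSumFinEquiv finSumFinEquiv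
      (1 + t • (Matrix.J (Fin g) ℂ * vecMulVec u u)) := rfl

theorem rn_mem {g : ℕ} (u : Fin g ⊕ Fin g → ℂ) (t : ℂ) : rn u t ∈ GB (Jn ℂ g) := by
  rw [mem_GB, rn_val]
  refine ⟨?_, ?_⟩
  · rw [Matrix.det_reindex_self]
    exact ru_det u t
  · have h1 := SymplecticGroup.mem_iff.1 (rank_one_sp u t)
    have h2 := congrArg (Matrix.reindexAlgEquiv ℂ ℂ (finSumFinEquiv : Fin g ⊕ Fin g ≃ Fin (g + g))) h1
    rw [map_mul, map_mul] at h2
    exact h2

/-- the span of the products of the symplectic forms over matchings -/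
def MatN (g : Fin k → ℕ) (m : ℕ) : Submodule ℚ ((Fin (2 * m) → Σ i, Fin (g i + g i)) → ℚ) :=
  Submodule.span ℚ {F | ∃ (e : Fin m × Fin 2 ≃ Fin (2 * m)) (c : Fin m → Fin k),
    ∀ I, F I = ∏ s, (if (I (e (s, 0))).1 = c s then
      (Matrix.blockDiagonal' (fun i => Jn ℚ (g i)) : Matrix (Σ i, Fin (g i + g i)) (Σ i, Fin (g i + g i)) ℚ)
        (I (e (s, 0))) (I (e (s, 1))) else 0)}

/-- **All classes over all number fields of degree at most `D`, of all degrees and heights.** -/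
theorem class_symp {m : ℕ} {r : Fin k → ℕ} {D : ℕ} {h : ∀ i, Fin (r i) → ℚ⟦X⟧}
    {P : ∀ i, Fin (g i + g i) → Fin (g i + g i) → MvPolynomial (Option (Fin (r i))) ℂ} {t : Fin k → ℕ}
    (hgood : GoodU D (Matrix.of fun (_ _ : Fin 1) => (2 * Real.pi * Complex.I : ℂ)⁻¹) h P t)
    (hunit : ∀ i, IsUnit (pM (h i) (P i) (t i : ℝ)))
    (hSp : ∀ i, GB (Jn ℂ (g i)) ≤ Gs (h i) (P i))
    {K : Subfield ℂ} (hKf : FiniteDimensional ℚ K) (hKD : finrank ℚ K ≤ D)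
    {ω : (Fin (2 * m) → Σ i, Fin (g i + g i)) → ℂ} (hω : ∀ v, ω v ∈ K)
    {γ : (Fin (2 * m) → Σ i, Fin (g i + g i)) → ℚ}
    (hrel : ∀ I, ∑ J, (∏ p, Matrix.blockDiagonal' (fun i => pM (h i) (P i) (t i : ℝ)) (I p) (J p)) * ω J =
      (2 * Real.pi * Complex.I) ^ m * (γ I : ℂ)) : γ ∈ MatN g m := by
  classical
  let γ' : (Fin (2 * m) → RR fun i => Fin (g i)) → ℚ := fun I => γ fun p => eqv g (I p)
  have hinv : RkInv fun I => (γ' I : ℂ) := by
    intro w j₀ hw t' I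
    have h1 := class_inv hgood hunit hKf hKD hω hrel (g := fun i => rn (fun a => w ⟨i, a⟩) t') (fun i => by
      exact mono_comm (hSp i) (sp_perf (Jn_skew (g i)) (Jn_det (g i))) (rn_mem _ t')) (fun p => eqv g (I p))
    refine Eq.trans ?_ h1
    refine Fintype.sum_equiv (Equiv.arrowCongr (Equiv.refl _) (eqv g)) _ _ fun J => ?_
    have h2 : ∀ p, (Equiv.arrowCongr (Equiv.refl (Fin (2 * m))) (eqv g)) J p = eqv g (J p) := fun p => rfl
    refine congrArg₂ (· * ·) ?_ rfl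
    refine Finset.prod_congr rfl fun p _ => ?_
    rw [h2, one_block hw]
    exact (bd_eqv (fun i => 1 + t' • (Matrix.J (Fin (g i)) ℂ * vecMulVec (fun a => w ⟨i, a⟩) (fun a => w ⟨i, a⟩)))
      (I p) (J p)).symm
  have h1 := mem_matchings hinv
  let L : ((Fin (2 * m) → RR fun i => Fin (g i)) → ℚ) →ₗ[ℚ] ((Fin (2 * m) → Σ i, Fin (g i + g i)) → ℚ) :=
    { toFun := fun F I => F fun p => (eqv g).symm (I p)
      map_add' := fun _ _ => rfl
      map_smul' := fun _ _ => rfl }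
  have hL : L γ' = γ := by
    funext I
    show γ (fun p => eqv g ((eqv g).symm (I p))) = γ I
    congr 1
    funext p
    exact Equiv.apply_symm_apply _ _
  rw [← hL]
  have h2 := Submodule.mem_map_of_mem (f := L) h1
  rw [Submodule.map_span] at h2
  refine Submodule.span_mono ?_ h2
  rintro _ ⟨F, ⟨e, c, hF⟩, rfl⟩
  refine ⟨e, c, fun I => ?_⟩
  show F (fun p => (eqv g).symm (I p)) = _
  rw [hF]
  refine Finset.prod_congr rfl fun s _ => ?_
  have h3 : ∀ x : Σ i, Fin (g i + g i), ((eqv g).symm x).1 = x.1 := fun x => rfl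
  rw [h3]
  congr 1
  have h4 := bd_eqv (fun i => Matrix.J (Fin (g i)) ℚ) ((eqv g).symm (I (e (s, 0)))) ((eqv g).symm (I (e (s, 1))))
  rw [Equiv.apply_symm_apply, Equiv.apply_symm_apply] at h4
  exact h4.symm

end symplectic

end Pool.Agent.V11273.GH
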