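import Mathlib
import Pool.Agent.H204R3.GP.FFT

/-!
# Tensors which are invariant under a product of symplectic groups are combinations of products over matchings
-/

set_option autoImplicit false
set_option linter.unusedSectionVars false

open Matrix

namespace Pool.Agent.V11273.GH

open Pool.Agent.H204R3.SP Pool.Agent.H204R3.GP

variable {κ : Type} [Fintype κ] [DecidableEq κ] {G : κ → Type} [∀ j, Fintype (G j)] [∀ j, DecidableEq (G j)]

/-- the indices of the sum -/
abbrev RR (G : κ → Type) : Type := Σ j, G j ⊕ G j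

/-- the involution -/
def iv (x : RR G) : RR G := ⟨x.1, x.2.swap⟩

/-- the signs -/
def sg (Ω : Type) [Field Ω] (x : RR G) : Ω := Sum.elim (fun _ => -1) (fun _ => 1) x.2

/-- the symplectic form on the sum -/
noncomputable def bJ (G : κ → Type) [∀ j, DecidableEq (G j)] (Ω : Type) [Field Ω] : Matrix (RR G) (RR G) Ω :=
  Matrix.blockDiagonal' fun j => Matrix.J (G j) Ω

theorem iv_iv (x : RR G) : iv (iv x) = x := by
  obtain ⟨j, a⟩ := x
  simp [iv]

theorem sg_iv {Ω : Type} [Field Ω] (x : RR G) : sg Ω (iv x) = -sg Ω x := by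
  obtain ⟨j, a | a⟩ := x <;> simp [iv, sg]

theorem sg_ne {Ω : Type} [Field Ω] (x : RR G) : sg Ω x ≠ 0 := by
  obtain ⟨j, a | a⟩ := x <;> simp [sg]

theorem JJ_bJ {Ω : Type} [Field Ω] (x y : RR G) : JJ iv (sg Ω) x y = bJ G Ω x y := by
  obtain ⟨j, a⟩ := x
  obtain ⟨l, b⟩ := y
  by_cases h : j = l
  · subst h
    unfold bJ
    rw [Matrix.blockDiagonal'_apply_eq]
    rcases a with a | a <;> rcases b with b | b
    · simp [JJ, iv, Matrix.J]
    · simp [JJ, iv, Matrix.J, sg, Matrix.one_apply, eq_comm]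
      split_ifs <;> simp
    · simp [JJ, iv, Matrix.J, sg, Matrix.one_apply, eq_comm]
    · simp [JJ, iv, Matrix.J]
  · unfold bJ
    rw [Matrix.blockDiagonal'_apply_ne _ _ _ h]
    unfold JJ
    rw [if_neg]
    intro h1
    exact h (congrArg Sigma.fst h1).symm

/-- the derivative of the action on tensors -/
theorem deriv_tensor {B : Type} [Fintype B] [DecidableEq B] {m : ℕ} (N : Matrix B B ℂ) (γ : (Fin m → B) → ℂ)
    (I : Fin m → B) (h : ∀ t : ℂ, ∑ J, (∏ p, (1 + t • N) (I p) (J p)) * γ J = γ I) :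
    ∑ p, ∑ j, N (I p) j * γ (Function.update I p j) = 0 := by
  classical
  have hd : ∀ J : Fin m → B, HasDerivAt (fun t : ℂ => (∏ p, (1 + t • N) (I p) (J p)) * γ J)
      ((∑ p, (∏ q ∈ Finset.univ.erase p, (1 : Matrix B B ℂ) (I q) (J q)) * N (I p) (J p)) * γ J) 0 := by
    intro J
    have h1 : ∀ p, HasDerivAt (fun t : ℂ => (1 + t • N) (I p) (J p)) (N (I p) (J p)) 0 := by
      intro p
      have h2 : (fun t : ℂ => (1 + t • N) (I p) (J p)) = fun t : ℂ => (1 : Matrix B B ℂ) (I p) (J p) + t * N (I p) (J p) := by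
        funext t
        rw [Matrix.add_apply, Matrix.smul_apply, smul_eq_mul]
      rw [h2]
      have h3 := ((hasDerivAt_id (0 : ℂ)).mul_const (N (I p) (J p))).const_add ((1 : Matrix B B ℂ) (I p) (J p))
      rw [one_mul] at h3
      exact h3
    have h4 := (HasDerivAt.fun_finsetProd (u := Finset.univ) fun p _ => h1 p).mul_const (γ J)
    have h5 : (∑ p, (∏ q ∈ Finset.univ.erase p, (1 + (0 : ℂ) • N) (I q) (J q)) • N (I p) (J p)) * γ J =
        (∑ p, (∏ q ∈ Finset.univ.erase p, (1 : Matrix B B ℂ) (I q) (J q)) * N (I p) (J p)) * γ J := by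
      rw [zero_smul, add_zero]
      simp only [smul_eq_mul]
    rw [← h5]
    exact h4
  have hs : HasDerivAt (fun t : ℂ => ∑ J, (∏ p, (1 + t • N) (I p) (J p)) * γ J)
      (∑ J, (∑ p, (∏ q ∈ Finset.univ.erase p, (1 : Matrix B B ℂ) (I q) (J q)) * N (I p) (J p)) * γ J) 0 :=
    HasDerivAt.fun_sum fun J _ => hd J
  have h0 : (fun t : ℂ => ∑ J, (∏ p, (1 + t • N) (I p) (J p)) * γ J) = fun _ => γ I := funext h
  rw [h0] at hs
  have h6 := hs.unique (hasDerivAt_const (0 : ℂ) (γ I))
  refine Eq.trans ?_ h6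
  simp_rw [Finset.sum_mul]
  rw [Finset.sum_comm (s := (Finset.univ : Finset (Fin m → B)))]
  refine Finset.sum_congr rfl fun p _ => ?_
  -- only the updates of `I` at `p` contribute
  have h8 : ∀ J : Fin m → B, J ∉ (Finset.univ : Finset B).image (fun j => Function.update I p j) →
      ((∏ q ∈ Finset.univ.erase p, (1 : Matrix B B ℂ) (I q) (J q)) * N (I p) (J p)) * γ J = 0 := by
    intro J hJ
    have h9 : ∃ q, q ≠ p ∧ I q ≠ J q := by
      by_contra hcon
      push Not at hcon
      apply hJ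
      rw [Finset.mem_image]
      refine ⟨J p, Finset.mem_univ _, ?_⟩
      funext q
      by_cases hq : q = p
      · subst hq
        rw [Function.update_self]
      · rw [Function.update_of_ne hq]
        exact hcon q hq
    obtain ⟨q, hq, hq'⟩ := h9
    have h11 : (∏ q ∈ Finset.univ.erase p, (1 : Matrix B B ℂ) (I q) (J q)) = 0 :=
      Finset.prod_eq_zero (i := q) (Finset.mem_erase.2 ⟨hq, Finset.mem_univ q⟩) (Matrix.one_apply_ne hq')
    rw [h11, zero_mul, zero_mul]
  rw [← Finset.sum_subset (Finset.subset_univ ((Finset.univ : Finset B).image (fun j => Function.update I p j)))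
    (fun J _ hJ => h8 J hJ), Finset.sum_image]
  · refine Finset.sum_congr rfl fun j _ => ?_
    have h11 : (∏ q ∈ Finset.univ.erase p, (1 : Matrix B B ℂ) (I q) (Function.update I p j q)) = 1 := by
      refine Finset.prod_eq_one fun q hq => ?_
      rw [Function.update_of_ne (Finset.ne_of_mem_erase hq), Matrix.one_apply_eq]
    rw [Function.update_self, h11, one_mul]
  · intro a _ b _ hab
    have h10 := congrFun hab p
    simp only [Function.update_self] at h10
    exact h10

/-- rank one elements of the Lie algebra -/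
theorem rank_one_sp {l : Type} [Fintype l] [DecidableEq l] (w : l ⊕ l → ℂ) (t : ℂ) :
    (1 + t • (Matrix.J l ℂ * vecMulVec w w)) ∈ Matrix.symplecticGroup l ℂ := by
  rw [SymplecticGroup.mem_iff]
  have hJt : (Matrix.J l ℂ)ᵀ = -Matrix.J l ℂ := Matrix.J_transpose l ℂ
  have h0 : w ⬝ᵥ (Matrix.J l ℂ *ᵥ w) = 0 := by
    have h1 : w ⬝ᵥ (Matrix.J l ℂ *ᵥ w) = -(w ⬝ᵥ (Matrix.J l ℂ *ᵥ w)) := by
      nth_rewrite 1 [dotProduct_mulVec, ← mulVec_transpose, hJt, neg_mulVec, neg_dotProduct, dotProduct_comm]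
      rfl
    have h2 : (2 : ℂ) * (w ⬝ᵥ (Matrix.J l ℂ *ᵥ w)) = 0 := by linear_combination h1
    exact (mul_eq_zero.1 h2).resolve_left two_ne_zero
  have h3 : vecMulVec w w * Matrix.J l ℂ * vecMulVec w w = 0 := by
    rw [Matrix.mul_assoc, mul_vecMulVec, vecMulVec_mul_vecMulVec, h0, vecMulVec_smul, zero_smul]
  have h4 : (vecMulVec w w)ᵀ = vecMulVec w w := transpose_vecMulVec w w
  rw [Matrix.transpose_add, Matrix.transpose_one, Matrix.transpose_smul, Matrix.transpose_mul, h4, hJt]
  have h5 : (1 + t • (Matrix.J l ℂ * vecMulVec w w)) * Matrix.J l ℂ * (1 + t • (vecMulVec w w * -Matrix.J l ℂ)) =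
      Matrix.J l ℂ + (t • (Matrix.J l ℂ * vecMulVec w w * Matrix.J l ℂ) - t • (Matrix.J l ℂ * vecMulVec w w * Matrix.J l ℂ))
        - (t * t) • (Matrix.J l ℂ * (vecMulVec w w * Matrix.J l ℂ * vecMulVec w w) * Matrix.J l ℂ) := by
    simp only [Matrix.add_mul, Matrix.mul_add, Matrix.one_mul, Matrix.mul_one, Matrix.smul_mul, Matrix.mul_smul,
      Matrix.mul_neg, smul_neg, smul_add, smul_smul, Matrix.mul_assoc]
    abel
  rw [h5, h3, Matrix.mul_zero, Matrix.zero_mul, smul_zero, sub_self, add_zero, sub_zero]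

end Pool.Agent.V11273.GH
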