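import Pool.Agent.V11273.GH.F1

/-!
# Tensors which are invariant under a product of symplectic groups are combinations of products over matchings
-/

set_option autoImplicit false
set_option linter.unusedSectionVars false

open Matrix

namespace Pool.Agent.V11273.GH

open Pool.Agent.H204R3.SP Pool.Agent.H204R3.GP

variable {κ : Type} [Fintype κ] [DecidableEq κ] {G : κ → Type} [∀ j, Fintype (G j)] [∀ j, DecidableEq (G j)]

/-- invariance under the product of the symplectic groups -/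
def SpInv {m : ℕ} (γ : (Fin m → RR G) → ℂ) : Prop :=
  ∀ g : ∀ j, GL (G j ⊕ G j) ℂ, (∀ j, ((g j : GL (G j ⊕ G j) ℂ) : Matrix (G j ⊕ G j) (G j ⊕ G j) ℂ) ∈
    Matrix.symplecticGroup (G j) ℂ) → ∀ I, ∑ J, (∏ p, Matrix.blockDiagonal' (fun j => ((g j : GL (G j ⊕ G j) ℂ) :
      Matrix (G j ⊕ G j) (G j ⊕ G j) ℂ)) (I p) (J p)) * γ J = γ I

theorem bJ_mulVec (w : RR G → ℂ) (j : κ) (a : G j ⊕ G j) :
    (bJ G ℂ *ᵥ w) ⟨j, a⟩ = (Matrix.J (G j) ℂ *ᵥ fun b => w ⟨j, b⟩) a := by
  rw [Matrix.mulVec, dotProduct, Fintype.sum_sigma, Finset.sum_eq_single j]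
  · rw [Matrix.mulVec, dotProduct]
    refine Finset.sum_congr rfl fun b _ => ?_
    unfold bJ
    rw [Matrix.blockDiagonal'_apply_eq]
  · intro l _ hl
    refine Finset.sum_eq_zero fun b _ => ?_
    unfold bJ
    rw [Matrix.blockDiagonal'_apply_ne _ _ _ (Ne.symm hl), zero_mul]
  · intro h
    exact absurd (Finset.mem_univ _) h

theorem entry (w : RR G → ℂ) (x y : RR G) : (bJ G ℂ * vecMulVec w w) x y = (bJ G ℂ *ᵥ w) x * w y := by
  rw [mul_vecMulVec, vecMulVec_apply]

/-- the elements of rank one in one block -/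
theorem one_block {w : RR G → ℂ} {j₀ : κ} (hw : ∀ x : RR G, x.1 ≠ j₀ → w x = 0) (t : ℂ) :
    (1 + t • (bJ G ℂ * vecMulVec w w)) = Matrix.blockDiagonal' fun j =>
      (1 + t • (Matrix.J (G j) ℂ * vecMulVec (fun a => w ⟨j, a⟩) (fun a => w ⟨j, a⟩))) := by
  ext ⟨j, a⟩ ⟨l, b⟩
  rw [Matrix.add_apply, Matrix.smul_apply, entry, bJ_mulVec]
  by_cases h : j = l
  · subst h
    rw [Matrix.blockDiagonal'_apply_eq, Matrix.add_apply, Matrix.smul_apply, mul_vecMulVec, vecMulVec_apply]
    congr 1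
    by_cases hab : a = b
    · subst hab
      rw [Matrix.one_apply_eq, Matrix.one_apply_eq]
    · rw [Matrix.one_apply_ne hab, Matrix.one_apply_ne]
      intro h1
      apply hab
      exact eq_of_heq (Sigma.mk.inj h1).2
  · rw [Matrix.blockDiagonal'_apply_ne _ _ _ h, Matrix.one_apply_ne (fun h1 => h (congrArg Sigma.fst h1)), zero_add]
    by_cases hl : l = j₀
    · have hj : j ≠ j₀ := fun h1 => h (h1.trans hl.symm)
      have h2 : (fun b => w ⟨j, b⟩) = 0 := funext fun b => hw ⟨j, b⟩ hj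
      rw [h2, Matrix.mulVec_zero, Pi.zero_apply, zero_mul, smul_zero]
    · rw [hw ⟨l, b⟩ hl, mul_zero, smul_zero]

/-- invariance under the elements of rank one -/
def RkInv {m : ℕ} (γ : (Fin m → RR G) → ℂ) : Prop :=
  ∀ (w : RR G → ℂ) (j₀ : κ), (∀ x : RR G, x.1 ≠ j₀ → w x = 0) → ∀ (t : ℂ) (I : Fin m → RR G),
    ∑ J, (∏ p, (1 + t • (bJ G ℂ * vecMulVec w w)) (I p) (J p)) * γ J = γ I

theorem rkInv_of_spInv {m : ℕ} {γ : (Fin m → RR G) → ℂ} (h : SpInv γ) : RkInv γ := by
  intro w j₀ hw t I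
  have hmem : ∀ j, (1 + t • (Matrix.J (G j) ℂ * vecMulVec (fun a => w ⟨j, a⟩) (fun a => w ⟨j, a⟩))) ∈
      Matrix.symplecticGroup (G j) ℂ := fun j => rank_one_sp _ t
  have hdet : ∀ j, IsUnit (1 + t • (Matrix.J (G j) ℂ * vecMulVec (fun a => w ⟨j, a⟩) (fun a => w ⟨j, a⟩))).det := by
    intro j
    exact SymplecticGroup.symplectic_det (hmem j)
  have h1 := h (fun j => Matrix.nonsingInvUnit _ (hdet j)) hmem I
  rw [one_block hw]
  exact h1

/-- the Lie algebra element of rank one acts trivially -/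
theorem kill_one {m : ℕ} {γ : (Fin m → RR G) → ℂ} (h : RkInv γ) {w : RR G → ℂ} {j₀ : κ}
    (hw : ∀ x : RR G, x.1 ≠ j₀ → w x = 0) (I : Fin m → RR G) :
    ∑ p, ∑ j, (bJ G ℂ * vecMulVec w w) (I p) j * γ (Function.update I p j) = 0 := by
  exact deriv_tensor _ γ I fun t => h w j₀ hw t I

theorem kill_two {m : ℕ} {γ : (Fin m → RR G) → ℂ} (h : RkInv γ) (b c : RR G) (hbc : b.1 = c.1) (I : Fin m → RR G) :
    ∑ p, (bJ G ℂ (I p) b * γ (Function.update I p c) + bJ G ℂ (I p) c * γ (Function.update I p b)) = 0 := by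
  have e1 := kill_one h (w := Pi.single b 1 + Pi.single c 1) (j₀ := b.1) (by
    intro x hx
    rw [Pi.add_apply, Pi.single_eq_of_ne (fun h1 => hx (by rw [h1])),
      Pi.single_eq_of_ne (fun h1 => hx (by rw [h1, hbc])), add_zero]) I
  have e2 := kill_one h (w := Pi.single b 1) (j₀ := b.1) (by
    intro x hx
    rw [Pi.single_eq_of_ne (fun h1 => hx (by rw [h1]))]) I
  have e3 := kill_one h (w := Pi.single c 1) (j₀ := b.1) (by
    intro x hx
    rw [Pi.single_eq_of_ne (fun h1 => hx (by rw [h1, hbc]))]) I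
  have e4 : ∀ w : RR G → ℂ, ∀ x y, (bJ G ℂ * vecMulVec w w) x y = (bJ G ℂ *ᵥ w) x * w y := entry
  let eb : RR G → ℂ := Pi.single b 1
  let ec : RR G → ℂ := Pi.single c 1
  let N : (RR G → ℂ) → Matrix (RR G) (RR G) ℂ := fun w => bJ G ℂ * vecMulVec w w
  have key : ∑ p, ∑ j, (N (eb + ec) (I p) j - N eb (I p) j - N ec (I p) j) * γ (Function.update I p j) = 0 := by
    have e1' : ∑ p, ∑ j, N (eb + ec) (I p) j * γ (Function.update I p j) = 0 := e1
    have e2' : ∑ p, ∑ j, N eb (I p) j * γ (Function.update I p j) = 0 := e2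
    have e3' : ∑ p, ∑ j, N ec (I p) j * γ (Function.update I p j) = 0 := e3
    simp only [sub_mul, Finset.sum_sub_distrib, e1', e2', e3', sub_zero]
  refine Eq.trans (Finset.sum_congr rfl fun p _ => ?_) key
  have h5 : ∀ j, (N (eb + ec) (I p) j - N eb (I p) j - N ec (I p) j) * γ (Function.update I p j) =
      (if j = c then bJ G ℂ (I p) b * γ (Function.update I p j) else 0) +
      (if j = b then bJ G ℂ (I p) c * γ (Function.update I p j) else 0) := by
    intro j
    have e5 : ∀ w x y, N w x y = (bJ G ℂ *ᵥ w) x * w y := e4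
    have e6 : bJ G ℂ *ᵥ eb = (bJ G ℂ).col b := Matrix.mulVec_single_one _ _
    have e7 : bJ G ℂ *ᵥ ec = (bJ G ℂ).col c := Matrix.mulVec_single_one _ _
    have e8 : eb j = if j = b then 1 else 0 := Pi.single_apply b 1 j
    have e9 : ec j = if j = c then 1 else 0 := Pi.single_apply c 1 j
    rw [e5, e5, e5, Matrix.mulVec_add, e6, e7]
    simp only [Pi.add_apply, Matrix.col_apply, e8, e9]
    split_ifs <;> ring
  rw [Finset.sum_congr rfl fun j _ => h5 j, Finset.sum_add_distrib, Finset.sum_ite_eq', Finset.sum_ite_eq',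
    if_pos (Finset.mem_univ _), if_pos (Finset.mem_univ _)]

theorem bJ_anti (x y : RR G) : bJ G ℂ x y = -bJ G ℂ y x := by
  have h1 : (bJ G ℂ)ᵀ = -bJ G ℂ := by
    unfold bJ
    rw [Matrix.blockDiagonal'_transpose]
    have h2 : (fun j => (Matrix.J (G j) ℂ)ᵀ) = fun j => -Matrix.J (G j) ℂ := funext fun j => Matrix.J_transpose _ _
    rw [h2]
    exact Matrix.blockDiagonal'_neg _
  have h2 := congrFun (congrFun h1 y) x
  rw [Matrix.transpose_apply, Matrix.neg_apply] at h2
  exact h2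

theorem bJ_cast (x y : RR G) : ((bJ G ℚ x y : ℚ) : ℂ) = bJ G ℂ x y := by
  rw [← JJ_bJ, ← JJ_bJ]
  unfold JJ sg
  split_ifs with h
  · obtain ⟨j, a | a⟩ := x <;> simp
  · simp

/-- the part of a form of a given type -/
noncomputable def typR {m : ℕ} (τ : Fin m → κ) (γ : (Fin m → RR G) → ℚ) : (Fin m → RR G) → ℚ :=
  fun I => if ∀ p, (I p).1 = τ p then γ I else 0

theorem sum_typR {m : ℕ} (γ : (Fin m → RR G) → ℚ) : ∑ τ : Fin m → κ, typR τ γ = γ := by
  funext I
  rw [Finset.sum_apply, Finset.sum_eq_single (fun p => (I p).1)]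
  · unfold typR
    rw [if_pos fun _ => rfl]
  · intro τ _ hτ
    unfold typR
    rw [if_neg]
    intro h
    exact hτ (funext fun p => (h p).symm)
  · intro h
    exact absurd (Finset.mem_univ _) h

theorem typR_mem {m : ℕ} {γ : (Fin m → RR G) → ℚ} (h : RkInv fun I => (γ I : ℂ)) (τ : Fin m → κ) :
    typR τ γ ∈ InvG Sigma.fst iv (sg ℚ) (Fin m) τ := by
  have hQ : ∀ (b c : RR G), b.1 = c.1 → ∀ I : Fin m → RR G,
      ∑ p, (bJ G ℚ b (I p) * γ (Function.update I p c) + bJ G ℚ c (I p) * γ (Function.update I p b)) = 0 := by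
    intro b c hbc I
    have h1 := kill_two h b c hbc I
    have h2 : ((∑ p, (bJ G ℚ b (I p) * γ (Function.update I p c) + bJ G ℚ c (I p) * γ (Function.update I p b)) : ℚ) : ℂ) =
        -∑ p, (bJ G ℂ (I p) b * γ (Function.update I p c) + bJ G ℂ (I p) c * γ (Function.update I p b)) := by
      push_cast
      rw [← Finset.sum_neg_distrib]
      refine Finset.sum_congr rfl fun p _ => ?_
      rw [bJ_cast, bJ_cast, bJ_anti b (I p), bJ_anti c (I p)]
      ring
    rw [h1, neg_zero] at h2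
    exact_mod_cast h2
  refine ⟨fun b c hbc I => ?_, fun I hI p => ?_⟩
  · have hbc' : b.1 = c.1 := hbc
    have key : ∀ (x y : RR G), x.1 = y.1 → ∀ p,
        JJ iv (sg ℚ) x (I p) * typR τ γ (Function.update I p y) =
        if ∀ p, (I p).1 = τ p then bJ G ℚ x (I p) * γ (Function.update I p y) else 0 := by
      intro x y hxy p
      rw [JJ_bJ]
      by_cases hx : (I p).1 = x.1
      · have h1 : (I p).1 = y.1 := hx.trans hxy
        have h2 : (∀ q, ((Function.update I p y) q).1 = τ q) ↔ ∀ q, (I q).1 = τ q := by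
          refine forall_congr' fun q => ?_
          by_cases hq : q = p
          · subst hq
            rw [Function.update_self, h1]
          · rw [Function.update_of_ne hq]
        unfold typR
        by_cases h3 : ∀ q, (I q).1 = τ q
        · rw [if_pos (h2.2 h3), if_pos h3]
        · rw [if_neg (fun h => h3 (h2.1 h)), if_neg h3, mul_zero]
      · have h1 : bJ G ℚ x (I p) = 0 := by
          obtain ⟨j, a⟩ := x
          generalize I p = z at hx ⊢
          obtain ⟨l, b⟩ := z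
          exact Matrix.blockDiagonal'_apply_ne _ _ _ (fun h => hx h.symm)
        rw [h1, zero_mul, zero_mul]
        split_ifs <;> rfl
    have h4 : ∀ p, JJ iv (sg ℚ) b (I p) * typR τ γ (Function.update I p c) +
        JJ iv (sg ℚ) c (I p) * typR τ γ (Function.update I p b) =
        if ∀ p, (I p).1 = τ p then (bJ G ℚ b (I p) * γ (Function.update I p c) +
          bJ G ℚ c (I p) * γ (Function.update I p b)) else 0 := by
      intro p
      rw [key b c hbc' p, key c b hbc'.symm p]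
      split_ifs
      · rfl
      · rw [add_zero]
    rw [Finset.sum_congr rfl (fun p _ => h4 p)]
    by_cases h5 : ∀ p, (I p).1 = τ p
    · simp only [if_pos h5]
      exact hQ b c hbc' I
    · simp only [if_neg h5, Finset.sum_const_zero]
  · unfold typR at hI
    by_contra h1
    apply hI
    rw [if_neg]
    intro h2
    exact h1 (h2 p)

/-- **First fundamental theorem.** -/
theorem mem_matG {m : ℕ} {γ : (Fin (2 * m) → RR G) → ℚ} (h : RkInv fun I => (γ I : ℂ)) :
    γ ∈ MatG Sigma.fst iv (sg ℚ) (Fin (2 * m)) m := by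
  rw [← sum_typR γ]
  refine Submodule.sum_mem _ fun τ _ => ?_
  exact fftG (cls := Sigma.fst) (inv := iv) (jj := sg ℚ) iv_iv sg_iv sg_ne (fun x y h => h) m (Fin (2 * m))
    (Fintype.card_fin _) τ (typR_mem h τ)

/-- in coordinates: products of the symplectic forms over matchings -/
theorem mem_matchings {m : ℕ} {γ : (Fin (2 * m) → RR G) → ℚ} (h : RkInv fun I => (γ I : ℂ)) :
    γ ∈ Submodule.span ℚ {F : (Fin (2 * m) → RR G) → ℚ | ∃ (e : Fin m × Fin 2 ≃ Fin (2 * m)) (c : Fin m → κ),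
      ∀ I, F I = ∏ s, (if (I (e (s, 0))).1 = c s then bJ G ℚ (I (e (s, 0))) (I (e (s, 1))) else 0)} := by
  refine Submodule.span_mono ?_ (mem_matG h)
  rintro _ ⟨e, c, rfl⟩
  refine ⟨e, c, fun I => ?_⟩
  unfold matG
  simp only [JJ_bJ]

end Pool.Agent.V11273.GH
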