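import Pool.Agent.V11273.PV.G8
import Pool.Agent.V11273.GH.F2

/-!
# De Rham-Betti classes of almost all fibres of families with symplectic Galois groups, bounded height
-/

set_option autoImplicit false
set_option linter.unusedSectionVars false

open Filter Topology NumberField Matrix

namespace Pool.Agent.V11273.GH

open Pool.Agent.Y890.MV
open Pool.Agent.Y124 (Cov)
open Pool.Agent.V11273.PV

/-- the unit `1 + t J u uᵀ` -/
noncomputable def ru {l : Type} [Fintype l] [DecidableEq l] (u : l ⊕ l → ℂ) (t : ℂ) : GL (l ⊕ l) ℂ :=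
  Matrix.nonsingInvUnit (1 + t • (Matrix.J l ℂ * vecMulVec u u)) (SymplecticGroup.symplectic_det (rank_one_sp u t))

theorem ru_val {l : Type} [Fintype l] [DecidableEq l] (u : l ⊕ l → ℂ) (t : ℂ) :
    ((ru u t : GL (l ⊕ l) ℂ) : Matrix (l ⊕ l) (l ⊕ l) ℂ) = 1 + t • (Matrix.J l ℂ * vecMulVec u u) := rfl

theorem ru_sq {l : Type} [Fintype l] [DecidableEq l] (u : l ⊕ l → ℂ) :
    (Matrix.J l ℂ * vecMulVec u u) * (Matrix.J l ℂ * vecMulVec u u) = 0 := by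
  have hJt : (Matrix.J l ℂ)ᵀ = -Matrix.J l ℂ := Matrix.J_transpose l ℂ
  have h0 : u ⬝ᵥ (Matrix.J l ℂ *ᵥ u) = 0 := by
    have h1 : u ⬝ᵥ (Matrix.J l ℂ *ᵥ u) = -(u ⬝ᵥ (Matrix.J l ℂ *ᵥ u)) := by
      nth_rewrite 1 [dotProduct_mulVec, ← mulVec_transpose, hJt, neg_mulVec, neg_dotProduct, dotProduct_comm]
      rfl
    have h2 : (2 : ℂ) * (u ⬝ᵥ (Matrix.J l ℂ *ᵥ u)) = 0 := by linear_combination h1
    exact (mul_eq_zero.1 h2).resolve_left two_ne_zero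
  have h3 : vecMulVec u u * Matrix.J l ℂ * vecMulVec u u = 0 := by
    rw [Matrix.mul_assoc, mul_vecMulVec, vecMulVec_mul_vecMulVec, h0, vecMulVec_smul, zero_smul]
  rw [Matrix.mul_assoc, ← Matrix.mul_assoc (vecMulVec u u), h3, Matrix.mul_zero]

theorem ru_pow {l : Type} [Fintype l] [DecidableEq l] (u : l ⊕ l → ℂ) (t : ℂ) (n : ℕ) :
    ru u t ^ n = ru u (n * t) := by
  induction n with
  | zero =>
    apply Units.ext
    rw [pow_zero, ru_val, Nat.cast_zero, zero_mul, zero_smul, add_zero]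
    rfl
  | succ n ih =>
    apply Units.ext
    rw [pow_succ, ih, Units.val_mul, ru_val, ru_val, ru_val, Matrix.add_mul, Matrix.one_mul, Matrix.mul_add,
      Matrix.mul_one, Matrix.smul_mul, Matrix.mul_smul, ru_sq, smul_zero, smul_zero, add_zero, Nat.cast_succ, add_mul,
      one_mul, add_smul]
    abel

/-- the rank one elements are in the identity component -/
theorem ru_idc {l : Type} [Fintype l] [DecidableEq l] {𝒢 : Subgroup (GL (l ⊕ l) ℂ)}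
    (h : ∀ g : GL (l ⊕ l) ℂ, (g : Matrix (l ⊕ l) (l ⊕ l) ℂ) ∈ Matrix.symplecticGroup l ℂ → g ∈ 𝒢) (u : l ⊕ l → ℂ)
    (t : ℂ) : ru u t ∈ IdComp 𝒢 := by
  have hG : ∀ t, ru u t ∈ 𝒢 := fun t => h _ (rank_one_sp u t)
  refine ⟨hG t, fun H hH _ => ?_⟩
  have hn : H.normalCore.index ≠ 0 := (Subgroup.finiteIndex_normalCore (H := H)).index_ne_zero
  have h1 := Subgroup.pow_index_mem H.normalCore (⟨ru u (((H.normalCore.index : ℕ) : ℂ)⁻¹ * t), hG _⟩ : 𝒢)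
  have h2 : (⟨ru u (((H.normalCore.index : ℕ) : ℂ)⁻¹ * t), hG _⟩ : 𝒢) ^ H.normalCore.index = ⟨ru u t, hG t⟩ := by
    apply Subtype.ext
    rw [Subgroup.coe_pow]
    show ru u (((H.normalCore.index : ℕ) : ℂ)⁻¹ * t) ^ H.normalCore.index = ru u t
    rw [ru_pow]
    congr 1
    rw [← mul_assoc, mul_inv_cancel₀ (by exact_mod_cast hn), one_mul]
  rw [h2] at h1
  exact H.normalCore_le h1

variable {κ : Type} [Fintype κ] [DecidableEq κ] {X G : κ → Type} [∀ j, Fintype (X j)] [∀ j, DecidableEq (X j)]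
  [∀ j, Fintype (G j)] [∀ j, DecidableEq (G j)]
  {U : ∀ j, Set (X j → ℂ)} {Y : ∀ j, (X j → ℂ) → Matrix (G j ⊕ G j) (G j ⊕ G j) ℂ}

/-- the span of the products of the symplectic forms over matchings -/
def Mat (G : κ → Type) [∀ j, DecidableEq (G j)] (m : ℕ) : Submodule ℚ ((Fin (2 * m) → RR G) → ℚ) :=
  Submodule.span ℚ {F : (Fin (2 * m) → RR G) → ℚ | ∃ (e : Fin m × Fin 2 ≃ Fin (2 * m)) (c : Fin m → κ),
      ∀ I, F I = ∏ s, (if (I (e (s, 0))).1 = c s then bJ G ℚ (I (e (s, 0))) (I (e (s, 1))) else 0)}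

/-- points with a small de Rham-Betti class which is not in the span of the products of the symplectic forms -/
def ExcG (U : ∀ j, Set (X j → ℂ)) (Y : ∀ j, (X j → ℂ) → Matrix (G j ⊕ G j) (G j ⊕ G j) ℂ) (k : ℕ) (K : Type) [Field K]
    [NumberField K] (io : K →+* ℂ) (T : ℝ) : Set ((Σ j, X j) → K) :=
  {s | (∀ i, Y120.HtLe K T (s i)) ∧ (fun i => io (s i)) ∈ InnerM (UU U) k ∧ ∃ m : ℕ, 2 * m ≤ k ∧
    ∃ (ω : (Fin (2 * m) → RR G) → 𝓞 K) (γ : (Fin (2 * m) → RR G) → ℤ),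
      (∀ I (ψ : K →+* ℂ), ‖ψ (ω I : K)‖ ≤ T ^ (k : ℝ)) ∧ (∀ I, |(γ I : ℝ)| ≤ T ^ (k : ℝ)) ∧
      (∀ I, ∑ J, (∏ p, YY Y (fun i => io (s i)) (I p) (J p)) * io (ω J : K) =
        (2 * Real.pi * Complex.I) ^ m * (γ I : ℂ)) ∧ (fun I => (γ I : ℚ)) ∉ Mat G m}

theorem excG_sub (hSp : ∀ j, ∀ g : GL (G j ⊕ G j) ℂ, (g : Matrix (G j ⊕ G j) (G j ⊕ G j) ℂ) ∈
      Matrix.symplecticGroup (G j) ℂ → g ∈ Gal (U j) (Y j)) {T : ℝ} (hT : 1 ≤ T) {k k' : ℕ} (hk : 0 < k)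
    (hkk : 2 * k + 1 ≤ k') (K : Type) [Field K] [NumberField K] (io : K →+* ℂ) :
    ExcG U Y k K io T ⊆ ExcT U Y k' K io (fun i => (2 * Real.pi * Complex.I) ^ (i : ℕ)) T := by
  classical
  rintro s ⟨hs1, hs2, m, hm, ω, γ, hω, hγ, hrel, hnot⟩
  have hpow : T ^ (k : ℝ) ≤ T ^ (k' : ℝ) := by
    refine Real.rpow_le_rpow_of_exponent_le hT ?_
    have : k ≤ k' := by omega
    exact_mod_cast this
  have hT0 : 0 ≤ T ^ (k' : ℝ) := by positivity
  have hmk : m < k' := by omega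
  set π' : ℂ := 2 * Real.pi * Complex.I with hπ
  have hπ0 : π' ≠ 0 := by
    rw [hπ]
    exact Complex.two_pi_I_ne_zero
  let φ : Matrix (Fin (2 * m) → RR G) (Fin 0 → RR G) (𝓞 K) := Matrix.of fun I _ => ω I
  let β : Fin k' → Matrix (Fin (2 * m) → RR G) (Fin 0 → RR G) (𝓞 K) := fun i => Matrix.of fun I _ =>
    if (i : ℕ) = m then ((γ I : ℤ) : 𝓞 K) else 0
  have hcomb : comb io (fun i : Fin k' => π' ^ (i : ℕ)) β = Matrix.of fun I _ => π' ^ m * (γ I : ℂ) := by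
    ext I J
    unfold comb
    rw [Matrix.of_apply, Matrix.of_apply, Finset.sum_eq_single (⟨m, hmk⟩ : Fin k')]
    · simp [β]
    · intro i _ hi
      have : (i : ℕ) ≠ m := fun h => hi (Fin.ext h)
      simp [β, this]
    · intro h
      exact absurd (Finset.mem_univ _) h
  have htp0 : ∀ Z : Matrix (RR G) (RR G) ℂ, tp 0 Z = 1 := by
    intro Z
    ext a b
    have : a = b := Subsingleton.elim _ _
    subst this
    simp [tp]
  refine ⟨hs1, innerM_mono _ hk (by omega) hs2, 2 * m, 0, by omega, Nat.zero_le _, φ, β, ?_, ?_, ?_, ?_⟩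
  · intro I J ψ
    exact (hω I ψ).trans hpow
  · intro i I J ψ
    by_cases hi : (i : ℕ) = m
    · have : ψ ((β i I J : 𝓞 K) : K) = (γ I : ℂ) := by simp [β, hi]
      rw [this, Complex.norm_intCast]
      exact (hγ I).trans hpow
    · have : ψ ((β i I J : 𝓞 K) : K) = 0 := by simp [β, hi]
      rw [this, norm_zero]
      exact hT0
  · rw [hcomb, htp0, Matrix.mul_one]
    ext I J
    rw [Matrix.mul_apply, Matrix.of_apply, ← hrel I]
    rfl
  · by_contra hcon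
    push Not at hcon
    apply hnot
    refine mem_matchings ?_
    intro w j₀ hw t I
    have h1 := hcon (fun j => ru (fun a => w ⟨j, a⟩) t) (fun j => ru_idc (hSp j) _ t)
    rw [hcomb, htp0, Matrix.mul_one] at h1
    have h2 : (Matrix.blockDiagonal' fun j => ((ru (fun a => w ⟨j, a⟩) t : GL (G j ⊕ G j) ℂ) :
        Matrix (G j ⊕ G j) (G j ⊕ G j) ℂ)) = 1 + t • (bJ G ℂ * vecMulVec w w) := (one_block hw t).symm
    rw [h2] at h1
    have h3 := congrFun (congrFun h1 I) Fin.elim0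
    rw [Matrix.mul_apply, Matrix.of_apply] at h3
    have h4 : ∑ J, tp (2 * m) (1 + t • (bJ G ℂ * vecMulVec w w)) I J *
        (Matrix.of fun (I : Fin (2 * m) → RR G) (_ : Fin 0 → RR G) => π' ^ m * (γ I : ℂ)) J Fin.elim0 =
        π' ^ m * ∑ J, (∏ p, (1 + t • (bJ G ℂ * vecMulVec w w)) (I p) (J p)) * (γ J : ℂ) := by
      rw [Finset.mul_sum]
      refine Finset.sum_congr rfl fun J _ => ?_
      rw [Matrix.of_apply]
      show (∏ p, (1 + t • (bJ G ℂ * vecMulVec w w)) (I p) (J p)) * (π' ^ m * (γ J : ℂ)) = _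
      ring
    rw [h4] at h3
    have h5 := mul_left_cancel₀ (pow_ne_zero m hπ0) h3
    simpa using h5

/-- **De Rham-Betti classes of almost all fibres.** -/
theorem main_G [Nonempty (Σ j, X j)] (hU : ∀ j, IsPreconnected (U j)) (hUo : ∀ j, IsOpen (U j))
    (hne : ∀ j, (U j).Nonempty) (hY : ∀ j a b, AnalyticOnNhd ℂ (fun x => Y j x a b) (U j))
    (hdet : ∀ j, ∀ x ∈ U j, (Y j x).det ≠ 0) {c : ∀ j, MvPolynomial (X j) ℂ} (hc0 : ∀ j, c j ≠ 0)
    {B : ∀ j, X j → Matrix (G j ⊕ G j) (G j ⊕ G j) (MvPolynomial (X j) ℂ)}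
    (hc : ∀ j, Connection (U j) (Y j) (c j) (B j))
    (hSp : ∀ j, ∀ g : GL (G j ⊕ G j) ℂ, (g : Matrix (G j ⊕ G j) (G j ⊕ G j) ℂ) ∈
      Matrix.symplecticGroup (G j) ℂ → g ∈ Gal (U j) (Y j)) :
    ∃ (ω : ℝ → ℕ) (T₀ : ℝ), Tendsto ω atTop atTop ∧ Monotone ω ∧ ∀ T, T₀ ≤ T → 0 < ω T ∧
    ∀ (K : Type) [Field K] [NumberField K], Module.finrank ℚ K ≤ ω T → ∀ (io : K →+* ℂ),
      Cov ⌊T ^ ((ω T : ℝ)⁻¹)⌋₊ ⌊T ^ ((ω T : ℝ)⁻¹)⌋₊
        ((fun (s : (Σ j, X j) → K) i => io (s i)) '' ExcG U Y (ω T) K io T) ∧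
      (ExcG U Y (ω T) K io T).Finite ∧
      ((ExcG U Y (ω T) K io T).ncard : ℝ) ≤
        T ^ ((ω T : ℝ)⁻¹) * ({x : K | Y120.HtLe K T x}.ncard : ℝ) ^ (Fintype.card (Σ j, X j) - 1) := by
  have h1 := main_tensor (U := U) (Y := Y) hU hUo hne hY hdet hc0 hc
  have h2 : OmegaStm (fun k K [Field K] [NumberField K] io (_ : Fin k → ℂ) T => ExcG U Y k K io T) := by
    refine omega_transfer h1 1 ?_
    intro T hT k k' hk hkk K _ _ io ξ
    exact ⟨_, excG_sub hSp hT hk hkk K io⟩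
  obtain ⟨ω, T₀, h3, h4, h5⟩ := h2
  exact ⟨ω, T₀, h3, h4, fun T hT => ⟨(h5 T hT).1, fun K _ _ hK io => (h5 T hT).2 K hK io fun _ => 0⟩⟩

end Pool.Agent.V11273.GH
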