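import Pool.Agent.V11273.GH.A2
import Pool.Agent.V11273.PV.H3

/-!
# Hodge tensors of all sizes at almost all integral fibres
-/

set_option autoImplicit false
set_option linter.unusedSectionVars false

open Matrix Module PowerSeries Filter

namespace Pool.Agent.V11273.GH

open Pool.Agent.TH127.PT Pool.Agent.Y123.ST Pool.Agent.Y123.SR Pool.Agent.Y113 Pool.Agent.Y113.GG Pool.Agent.Y120.R
  Pool.Agent.Y123.GN
open Pool.Agent.V11273.PV (rt rt_apply apol apol_eval IdComp)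
open Pool.Agent.V11273.PW (HodgeT Frame hodge_fixed)

section dense

variable {B₀ : Type} [Fintype B₀] [DecidableEq B₀] {k : ℕ} {n : Fin k → ℕ}

/-- **Products of dense subgroups are dense.** -/
theorem dense_prod {𝒢 Γ : ∀ i, Subgroup (Matrix (Fin (n i)) (Fin (n i)) ℂ)ˣ}
    (hd : ∀ i, ∀ P : MvPolynomial (Fin (n i) × Fin (n i)) ℂ,
      (∀ g ∈ Γ i, MvPolynomial.eval (fun v => (g : Matrix (Fin (n i)) (Fin (n i)) ℂ) v.1 v.2) P = 0) →
      ∀ g ∈ 𝒢 i, MvPolynomial.eval (fun v => (g : Matrix (Fin (n i)) (Fin (n i)) ℂ) v.1 v.2) P = 0)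
    (P : MvPolynomial (IG B₀ n × IG B₀ n) ℂ)
    (h0 : ∀ g ∈ GG B₀ Γ, MvPolynomial.eval (fun v => (g : Matrix (IG B₀ n) (IG B₀ n) ℂ) v.1 v.2) P = 0) :
    ∀ g ∈ GG B₀ 𝒢, MvPolynomial.eval (fun v => (g : Matrix (IG B₀ n) (IG B₀ n) ℂ) v.1 v.2) P = 0 := by
  classical
  have key : ∀ s : Finset (Fin k), ∀ g : ∀ i, (Matrix (Fin (n i)) (Fin (n i)) ℂ)ˣ, (∀ i ∈ s, g i ∈ 𝒢 i) →
      (∀ i ∉ s, g i ∈ Γ i) →
      MvPolynomial.eval (fun v => (EG (1 : Matrix B₀ B₀ ℂ) fun i => (g i : Matrix (Fin (n i)) (Fin (n i)) ℂ)) v.1 v.2)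
        P = 0 := by
    intro s
    induction s using Finset.induction_on with
    | empty =>
      intro g _ hg
      exact h0 (EGu B₀ n g) ⟨g, fun i _ => hg i (Finset.notMem_empty i), rfl⟩
    | insert i₀ s hi₀ ih =>
      intro g hg hg'
      let W : ∀ i, Matrix (Fin (n i)) (Fin (n i)) (MvPolynomial (Fin (n i₀) × Fin (n i₀)) ℂ) :=
        Function.update (fun i => (g i : Matrix (Fin (n i)) (Fin (n i)) ℂ).map MvPolynomial.C) i₀
          (Matrix.of fun a b => MvPolynomial.X (a, b))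
      let V : Matrix (IG B₀ n) (IG B₀ n) (MvPolynomial (Fin (n i₀) × Fin (n i₀)) ℂ) :=
        fromBlocks 1 0 0 (blockDiagonal' W)
      have hV : ∀ x : Matrix (Fin (n i₀)) (Fin (n i₀)) ℂ,
          V.map (MvPolynomial.eval fun v => x v.1 v.2) = EG (1 : Matrix B₀ B₀ ℂ)
            (Function.update (fun i => (g i : Matrix (Fin (n i)) (Fin (n i)) ℂ)) i₀ x) := by
        intro x
        have h1 : (fun i => (W i).map (MvPolynomial.eval fun v => x v.1 v.2)) =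
            Function.update (fun i => (g i : Matrix (Fin (n i)) (Fin (n i)) ℂ)) i₀ x := by
          funext i
          by_cases hi : i = i₀
          · subst hi
            ext a b
            simp [W]
          · ext a b
            simp [W, Function.update_of_ne hi]
        show (fromBlocks 1 0 0 (blockDiagonal' W)).map _ = _
        rw [fromBlocks_map, Matrix.blockDiagonal'_map _ _ (map_zero _), h1, Matrix.map_one _ (map_zero _) (map_one _),
          Matrix.map_zero _ (map_zero _), Matrix.map_zero _ (map_zero _)]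
        rfl
      have hev : ∀ x : Matrix (Fin (n i₀)) (Fin (n i₀)) ℂ,
          MvPolynomial.eval (fun v => x v.1 v.2) (MvPolynomial.bind₁ (fun v : IG B₀ n × IG B₀ n => V v.1 v.2) P) =
          MvPolynomial.eval (fun v => (EG (1 : Matrix B₀ B₀ ℂ)
            (Function.update (fun i => (g i : Matrix (Fin (n i)) (Fin (n i)) ℂ)) i₀ x)) v.1 v.2) P := by
        intro x
        rw [← hV x, ← MvPolynomial.coe_aeval_eq_eval, ← MvPolynomial.coe_aeval_eq_eval]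
        change (MvPolynomial.aeval fun v => x v.1 v.2) (MvPolynomial.bind₁ (fun v : IG B₀ n × IG B₀ n => V v.1 v.2) P) =
          (MvPolynomial.aeval _) P
        rw [MvPolynomial.aeval_bind₁]
        rfl
      have h1 := hd i₀ (MvPolynomial.bind₁ (fun v : IG B₀ n × IG B₀ n => V v.1 v.2) P) (by
        intro x hx
        rw [hev]
        have h2 : (Function.update (fun i => (g i : Matrix (Fin (n i)) (Fin (n i)) ℂ)) i₀
            (x : Matrix (Fin (n i₀)) (Fin (n i₀)) ℂ)) = fun i =>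
              ((Function.update g i₀ x i : (Matrix (Fin (n i)) (Fin (n i)) ℂ)ˣ) : Matrix (Fin (n i)) (Fin (n i)) ℂ) := by
          funext i
          by_cases hi : i = i₀
          · subst hi
            simp
          · simp [Function.update_of_ne hi]
        rw [h2]
        refine ih _ (fun i hi => ?_) (fun i hi => ?_)
        · have hne : i ≠ i₀ := fun h => hi₀ (h ▸ hi)
          rw [Function.update_of_ne hne]
          exact hg i (Finset.mem_insert_of_mem hi)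
        · by_cases hi' : i = i₀
          · subst hi'
            rw [Function.update_self]
            exact hx
          · rw [Function.update_of_ne hi']
            exact hg' i fun h => (Finset.mem_insert.1 h).elim hi' hi) (g i₀) (hg i₀ (Finset.mem_insert_self _ _))
      rw [hev, Function.update_eq_self] at h1
      exact h1
  rintro _ ⟨g, hg, rfl⟩
  exact key Finset.univ g (fun i _ => hg i (Set.mem_univ i)) (fun i hi => absurd (Finset.mem_univ i) hi)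

/-- integral matrices -/
theorem int_prod {Γ : ∀ i, Subgroup (Matrix (Fin (n i)) (Fin (n i)) ℂ)ˣ}
    (hint : ∀ i, ∀ g ∈ Γ i, ∀ a b, ∃ m : ℤ, (g : Matrix (Fin (n i)) (Fin (n i)) ℂ) a b = m) :
    ∀ g ∈ GG B₀ Γ, ∀ a b, ∃ m : ℤ, (g : Matrix (IG B₀ n) (IG B₀ n) ℂ) a b = m := by
  rintro _ ⟨g, hg, rfl⟩ a b
  rw [EGu_val]
  unfold EG
  rcases a with a | ⟨i, a⟩ <;> rcases b with b | ⟨j, b⟩
  · by_cases h : a = b
    · subst h
      exact ⟨1, by simp⟩
    · exact ⟨0, by simp [h]⟩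
  · exact ⟨0, by simp⟩
  · exact ⟨0, by simp⟩
  · rw [fromBlocks_apply₂₂]
    by_cases h : i = j
    · subst h
      rw [blockDiagonal'_apply_eq]
      exact hint i _ (hg i (Set.mem_univ i)) a b
    · rw [blockDiagonal'_apply_ne _ _ _ h]
      exact ⟨0, by simp⟩

theorem EG_transpose (x : Matrix B₀ B₀ ℂ) (X : ∀ i, Matrix (Fin (n i)) (Fin (n i)) ℂ) :
    (EG x X)ᵀ = EG xᵀ fun i => (X i)ᵀ := by
  unfold EG
  rw [fromBlocks_transpose, blockDiagonal'_transpose, transpose_zero, transpose_zero]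

theorem EG_map (x : Matrix B₀ B₀ ℂ) (X : ∀ i, Matrix (Fin (n i)) (Fin (n i)) ℂ) :
    (EG x X).map (starRingEnd ℂ) = EG (x.map (starRingEnd ℂ)) fun i => (X i).map (starRingEnd ℂ) := by
  unfold EG
  rw [fromBlocks_map, Matrix.blockDiagonal'_map _ _ (map_zero _), Matrix.map_zero _ (map_zero _),
    Matrix.map_zero _ (map_zero _)]

/-- the form is preserved -/
theorem pres_prod {Γ : ∀ i, Subgroup (Matrix (Fin (n i)) (Fin (n i)) ℂ)ˣ} {S₀ : Matrix B₀ B₀ ℂ}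
    {S : ∀ i, Matrix (Fin (n i)) (Fin (n i)) ℂ}
    (hpres : ∀ i, ∀ g ∈ Γ i, (g : Matrix (Fin (n i)) (Fin (n i)) ℂ)ᵀ * S i * (g : Matrix (Fin (n i)) (Fin (n i)) ℂ) = S i) :
    ∀ g ∈ GG B₀ Γ, (g : Matrix (IG B₀ n) (IG B₀ n) ℂ)ᵀ * EG S₀ S * (g : Matrix (IG B₀ n) (IG B₀ n) ℂ) = EG S₀ S := by
  rintro _ ⟨g, hg, rfl⟩
  rw [EGu_val, EG_transpose, EG_mul, EG_mul, transpose_one, Matrix.one_mul, Matrix.mul_one]
  congr 1
  funext i
  exact hpres i _ (hg i (Set.mem_univ i))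

theorem EG_diagonal (d₀ : B₀ → ℂ) (d : ∀ i, Fin (n i) → ℂ) :
    EG (Matrix.diagonal d₀) (fun i => Matrix.diagonal (d i)) =
      Matrix.diagonal (Sum.elim d₀ fun v : Σ i, Fin (n i) => d v.1 v.2) := by
  unfold EG
  rw [blockDiagonal'_diagonal, fromBlocks_diagonal]

theorem EG_supp {x : Matrix B₀ B₀ ℂ} {X : ∀ i, Matrix (Fin (n i)) (Fin (n i)) ℂ} {R : IG B₀ n → IG B₀ n → Prop}
    (h0 : ∀ a b, x a b ≠ 0 → R (Sum.inl a) (Sum.inl b))
    (h1 : ∀ i a b, X i a b ≠ 0 → R (Sum.inr ⟨i, a⟩) (Sum.inr ⟨i, b⟩)) (u v : IG B₀ n) (h : EG x X u v ≠ 0) : R u v := by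
  unfold EG at h
  rcases u with a | ⟨i, a⟩ <;> rcases v with b | ⟨j, b⟩
  · exact h0 a b h
  · exact absurd rfl h
  · exact absurd rfl h
  · rw [fromBlocks_apply₂₂] at h
    by_cases hij : i = j
    · subst hij
      rw [blockDiagonal'_apply_eq] at h
      exact h1 i a b h
    · rw [blockDiagonal'_apply_ne _ _ _ hij] at h
      exact absurd rfl h

/-- the frame of a sum -/
theorem frame_total {p₀ : B₀ → ℤ} {w₀ : ℤ} {S₀ C₀ : Matrix B₀ B₀ ℂ} (hf₀ : Pool.Agent.V11273.PV.Frame p₀ w₀ S₀ C₀)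
    {p : ∀ i, Fin (n i) → ℤ} {w : Fin k → ℤ} {S Z : ∀ i, Matrix (Fin (n i)) (Fin (n i)) ℂ}
    (hf : ∀ i, Pool.Agent.V11273.PV.Frame (p i) (w i) (S i) (Z i)) :
    Frame (Sum.elim p₀ fun v : Σ i, Fin (n i) => p v.1 v.2) (Sum.elim (fun _ => w₀) fun v : Σ i, Fin (n i) => w v.1)
      (EG S₀ S) (EG C₀ Z) := by
  obtain ⟨Z0, T0, M0, h1, h2, h3, h4, h5⟩ := hf₀
  choose ZZ TT MM k1 k2 k3 k4 k5 using hf
  refine ⟨EG Z0 ZZ, EG T0 TT, EG M0 MM, ?_, ?_, ?_, ?_, ?_⟩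
  · rw [EG_mul, h1]
    congr 1
    funext i
    exact k1 i
  · intro a b hab
    refine EG_supp (R := fun a b => (Sum.elim (fun _ => w₀) fun v : Σ i, Fin (n i) => w v.1) a =
      (Sum.elim (fun _ => w₀) fun v : Σ i, Fin (n i) => w v.1) b ∧
      (Sum.elim p₀ fun v : Σ i, Fin (n i) => p v.1 v.2) b ≤ (Sum.elim p₀ fun v : Σ i, Fin (n i) => p v.1 v.2) a)
      ?_ ?_ a b hab
    · exact fun a b h => ⟨rfl, h2 a b h⟩
    · exact fun i a b h => ⟨rfl, k2 i a b h⟩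
  · rw [EG_map, EG_mul, h3]
    congr 1
    funext i
    exact k3 i
  · intro a b hab
    refine EG_supp (R := fun a b => (Sum.elim (fun _ => w₀) fun v : Σ i, Fin (n i) => w v.1) a =
      (Sum.elim (fun _ => w₀) fun v : Σ i, Fin (n i) => w v.1) b ∧
      (Sum.elim p₀ fun v : Σ i, Fin (n i) => p v.1 v.2) a + (Sum.elim p₀ fun v : Σ i, Fin (n i) => p v.1 v.2) b =
      (Sum.elim (fun _ => w₀) fun v : Σ i, Fin (n i) => w v.1) b)
      ?_ ?_ a b hab
    · exact fun a b h => ⟨rfl, h4 a b h⟩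
    · exact fun i a b h => ⟨rfl, k4 i a b h⟩
  · rw [EG_map, EG_transpose, EG_mul, EG_mul, h5]
    have h6 : (fun i => (ZZ i)ᵀ * S i * (ZZ i).map (starRingEnd ℂ)) = fun i =>
        Matrix.diagonal fun b => Complex.I ^ (w i - 2 * p i b) := funext fun i => k5 i
    rw [h6, EG_diagonal]
    congr 1
    funext v
    rcases v with v | v <;> rfl

end dense

/-- the coefficients of the polynomials of the action are integers -/
theorem apol_mem {M : Type} [Fintype M] [DecidableEq M] {m : ℕ} (γ : (Fin m → M) → ℤ) (J : Fin m → M) (K : Subfield ℂ)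
    (u : M × M →₀ ℕ) : (apol (fun a => (γ a : ℂ)) J).coeff u ∈ K := by
  classical
  rw [apol, MvPolynomial.coeff_sum]
  refine sum_mem fun a _ => ?_
  rw [MvPolynomial.coeff_monomial]
  split_ifs
  · exact intCast_mem K _
  · exact K.zero_mem

theorem apol_deg {M : Type} [Fintype M] [DecidableEq M] {m : ℕ} (γ : (Fin m → M) → ℂ) (J : Fin m → M) :
    (apol γ J).totalDegree ≤ m := by
  classical
  rw [apol]
  refine MvPolynomial.totalDegree_finsetSum_le fun a _ => ?_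
  refine (MvPolynomial.totalDegree_monomial_le _ _).trans ?_
  have h1 : ((∑ i, Finsupp.single (a i, J i) 1 : M × M →₀ ℕ).sum fun _ e => e) = m := by
    have h2 : ∀ s : Finset (Fin m), ((∑ i ∈ s, Finsupp.single (a i, J i) 1 : M × M →₀ ℕ).sum fun _ e => e) = s.card := by
      intro s
      induction s using Finset.induction_on with
      | empty => simp
      | insert b s hb ih =>
        rw [Finset.sum_insert hb, Finsupp.sum_add_index' (fun _ => rfl) (fun _ _ _ => rfl), ih,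
          Finsupp.sum_single_index rfl, Finset.card_insert_of_notMem hb, add_comm]
    rw [h2, Finset.card_univ, Fintype.card_fin]
  exact h1.le

section main

variable {k r : ℕ} {ρ n : Fin k → ℕ}

/-- the tuples at which there is an integral Hodge tensor of degree at most `D` which is not fixed by the identity
components -/
def HExc (D : ℕ) (h : ∀ i, Fin (ρ i) → ℚ⟦X⟧) (P : ∀ i, Fin (n i) → Fin (n i) → MvPolynomial (Option (Fin (ρ i))) ℂ)
    (p₀ : Fin r → ℤ) (w₀ : ℤ) (C₀ : Matrix (Fin r) (Fin r) ℂ)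
    (p : ∀ i, Fin (n i) → ℤ) (w : Fin k → ℤ) (S : ∀ i, Matrix (Fin (n i)) (Fin (n i)) ℂ)
    (t : Fin k → ℕ) : Prop :=
  (∀ i, Pool.Agent.V11273.PV.Frame (p i) (w i) (S i) (pM (h i) (P i) (t i : ℝ))) ∧ ∃ m ≤ D,
    ∃ γ : (Fin m → IG (Fin r) n) → ℤ,
      HodgeT (Sum.elim p₀ fun v : Σ i, Fin (n i) => p v.1 v.2) (Sum.elim (fun _ => w₀) fun v : Σ i, Fin (n i) => w v.1)
        (EG C₀ fun i => pM (h i) (P i) (t i : ℝ)) (fun a => (γ a : ℂ)) ∧
      ∃ g : ∀ i, (Matrix (Fin (n i)) (Fin (n i)) ℂ)ˣ, (∀ i, g i ∈ IdComp (Gs (h i) (P i))) ∧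
        rt (fun a => (γ a : ℂ)) (EG 1 fun i => (g i : Matrix (Fin (n i)) (Fin (n i)) ℂ)) ≠ fun a => (γ a : ℂ)

/-- **Hodge tensors of all sizes at almost all integral fibres.** -/
theorem hodge_main (k D e r : ℕ) (ρ n : Fin k → ℕ) (h : ∀ i, Fin (ρ i) → ℚ⟦X⟧) (hF : ∀ i δ, Fam δ (h i)) :
    ∃ c C : ℝ, 0 < c ∧ 0 ≤ C ∧ ∀ P : ∀ i, Fin (n i) → Fin (n i) → MvPolynomial (Option (Fin (ρ i))) ℂ,
    (∀ i a b, (P i a b).totalDegree ≤ e) →
    ∀ (p₀ : Fin r → ℤ) (w₀ : ℤ) (S₀ C₀ : Matrix (Fin r) (Fin r) ℂ), Pool.Agent.V11273.PV.Frame p₀ w₀ S₀ C₀ →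
    ∀ (p : ∀ i, Fin (n i) → ℤ) (w : Fin k → ℤ) (S : ∀ i, Matrix (Fin (n i)) (Fin (n i)) ℂ)
      (Γ : ∀ i, Subgroup (Matrix (Fin (n i)) (Fin (n i)) ℂ)ˣ), (∀ i, Γ i ≤ Gs (h i) (P i)) →
      (∀ i, ∀ P' : MvPolynomial (Fin (n i) × Fin (n i)) ℂ,
        (∀ g ∈ Γ i, MvPolynomial.eval (fun v => (g : Matrix (Fin (n i)) (Fin (n i)) ℂ) v.1 v.2) P' = 0) →
        ∀ g ∈ Gs (h i) (P i), MvPolynomial.eval (fun v => (g : Matrix (Fin (n i)) (Fin (n i)) ℂ) v.1 v.2) P' = 0) →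
      (∀ i, ∀ g ∈ Γ i, ∀ a b, ∃ m : ℤ, (g : Matrix (Fin (n i)) (Fin (n i)) ℂ) a b = m) →
      (∀ i, ∀ g ∈ Γ i, (g : Matrix (Fin (n i)) (Fin (n i)) ℂ)ᵀ * S i * (g : Matrix (Fin (n i)) (Fin (n i)) ℂ) = S i) →
    ∀ (x : Fin k → ℕ) (N : ℕ), 1 ≤ N → ∀ E : Finset (Fin k → ℕ), (∀ t ∈ E, (∀ i, x i < t i ∧ t i ≤ x i + N) ∧
      HExc D h P p₀ w₀ C₀ p w S t) →
    (E.card : ℝ) ≤ C * (N : ℝ) ^ (k - 1) * ∑ i, (1 + N / ((x i : ℝ) + N) ^ c) := by
  classical
  obtain ⟨c, C, hc, hC, hmain⟩ := rel_main k D e r ρ n h hF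
  refine ⟨c, C, hc, hC, fun P hP p₀ w₀ S₀ C₀ hf₀ p w S Γ hΓ hd hint hpres x N hN E hE =>
    hmain P hP C₀ x N hN E fun t ht => ⟨(hE t ht).1, fun hrel => ?_⟩⟩
  obtain ⟨hfr, m, hm, γ, hγ, g₀, hg₀, hne⟩ := (hE t ht).2
  apply hne
  have hfr' := frame_total hf₀ hfr
  have hΓ' : GG (Fin r) Γ ≤ GG (Fin r) fun i => Gs (h i) (P i) := by
    rintro _ ⟨g, hg, rfl⟩
    exact ⟨g, fun i hi => hΓ i (hg i hi), rfl⟩
  refine hodge_fixed hΓ' (dense_prod hd) (int_prod hint) (pres_prod (S₀ := S₀) hpres) hfr' γ ?_ (EGu (Fin r) n g₀)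
    (idComp_em hg₀)
  intro g hg J hJ
  have h1 : Rl ⊥ D (EG C₀ fun i => pM (h i) (P i) (t i : ℝ)) ((g : Matrix (IG (Fin r) n) (IG (Fin r) n) ℂ) *
      EG C₀ fun i => pM (h i) (P i) (t i : ℝ)) := by
    obtain ⟨g', hg', hgg⟩ := hg.1
    rw [← hgg]
    exact hrel g' fun i => hg' i (Set.mem_univ i)
  have h2 := h1 (apol (fun a => (γ a : ℂ)) J) (apol_mem γ J ⊥) ((apol_deg _ J).trans hm) (by
    refine (apol_eval _ J _).trans ?_
    exact hγ J hJ)
  exact (apol_eval _ J _).symm.trans h2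

end main

end Pool.Agent.V11273.GH
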