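import Pool.Agent.V11273.GH.I1
import Mathlib.LinearAlgebra.Eigenspace.Zero
import Mathlib.LinearAlgebra.Matrix.Block

/-!
# Endomorphisms of the Hodge structures at almost all integral fibres
-/

set_option autoImplicit false
set_option linter.unusedSectionVars false

open Matrix Module PowerSeries Filter

namespace Pool.Agent.V11273.GH

open Pool.Agent.TH127.PT Pool.Agent.Y123.ST Pool.Agent.Y123.SR Pool.Agent.Y113 Pool.Agent.Y113.GG Pool.Agent.Y120.R
  Pool.Agent.Y123.GN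
open Pool.Agent.V11273.PV (rt rt_apply apol apol_eval IdComp)

/-- matrices which commute with a matrix with distinct eigenvalues commute -/
theorem comm_of_sep {n : ℕ} {M A B : Matrix (Fin n) (Fin n) ℂ} (hM : M.charpoly.Separable) (hA : A * M = M * A)
    (hB : B * M = M * B) : A * B = B * A := by
  classical
  let f : Module.End ℂ (Fin n → ℂ) := Matrix.toLin' M
  have hch : f.charpoly = M.charpoly := Matrix.charpoly_toLin' M
  have hdim : ∀ μ : ℂ, Module.finrank ℂ (f.maxGenEigenspace μ) ≤ 1 := by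
    intro μ
    rw [LinearMap.finrank_maxGenEigenspace_eq, hch]
    exact Polynomial.rootMultiplicity_le_one_of_separable hM μ
  have hst : ∀ C : Matrix (Fin n) (Fin n) ℂ, C * M = M * C → ∀ μ, ∀ v ∈ f.maxGenEigenspace μ,
      Matrix.toLin' C v ∈ f.maxGenEigenspace μ := by
    intro C hC μ
    have h1 : Commute f (Matrix.toLin' C) := by
      show Matrix.toLin' M * Matrix.toLin' C = Matrix.toLin' C * Matrix.toLin' M
      rw [Module.End.mul_eq_comp, Module.End.mul_eq_comp, ← Matrix.toLin'_mul, ← Matrix.toLin'_mul, hC]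
    exact Module.End.mapsTo_maxGenEigenspace_of_comm h1 μ
  have key : ∀ μ, f.maxGenEigenspace μ ≤ LinearMap.ker (Matrix.toLin' (A * B - B * A)) := by
    intro μ v hv
    rw [LinearMap.mem_ker]
    by_cases h0 : v = 0
    · rw [h0, map_zero]
    have h1 : Module.finrank ℂ (f.maxGenEigenspace μ) = 1 := by
      refine le_antisymm (hdim μ) ?_
      rw [Nat.one_le_iff_ne_zero]
      intro h2
      have h3 : f.maxGenEigenspace μ = ⊥ := Submodule.finrank_eq_zero.1 h2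
      rw [h3] at hv
      exact h0 ((Submodule.mem_bot ℂ).1 hv)
    have h4 : (⟨v, hv⟩ : f.maxGenEigenspace μ) ≠ 0 := fun h => h0 (congrArg Subtype.val h)
    obtain ⟨α, hα⟩ := exists_smul_eq_of_finrank_eq_one h1 h4 ⟨_, hst A hA μ v hv⟩
    obtain ⟨β, hβ⟩ := exists_smul_eq_of_finrank_eq_one h1 h4 ⟨_, hst B hB μ v hv⟩
    have hα' : α • v = A *ᵥ v := congrArg Subtype.val hα
    have hβ' : β • v = B *ᵥ v := congrArg Subtype.val hβ
    rw [Matrix.toLin'_apply, Matrix.sub_mulVec, ← Matrix.mulVec_mulVec, ← Matrix.mulVec_mulVec, ← hα', ← hβ',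
      Matrix.mulVec_smul, Matrix.mulVec_smul, ← hα', ← hβ', smul_smul, smul_smul, mul_comm, sub_self]
  have h5 : LinearMap.ker (Matrix.toLin' (A * B - B * A)) = ⊤ := by
    rw [eq_top_iff, ← Module.End.iSup_maxGenEigenspace_eq_top f]
    exact iSup_le key
  have h6 : Matrix.toLin' (A * B - B * A) = 0 := LinearMap.ker_eq_top.1 h5
  have h7 : A * B - B * A = 0 := by
    apply (Matrix.toLin' (R := ℂ) (m := Fin n) (n := Fin n)).injective
    rw [h6, map_zero]
  exact sub_eq_zero.1 h7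

section endo

variable {I : Type} [Fintype I] [DecidableEq I]

/-- the orthogonality of the Hodge filtration -/
theorem orth {p : I → ℤ} {w : ℤ} {S Y : Matrix I I ℂ} (hfr : Pool.Agent.V11273.PV.Frame p w S Y) (c d : I)
    (h : (Yᵀ * S * Y) c d ≠ 0) : p c + p d ≤ w := by
  classical
  obtain ⟨Z, T, M, hZ, hT, hM, hM', hS⟩ := hfr
  have hinv := Pool.Agent.V11273.PV.frame_inv hS
  obtain ⟨W, hW⟩ : ∃ W, Z * W = 1 := by
    have h1 : (S * (Z.map (starRingEnd ℂ) * Matrix.diagonal (fun b => Complex.I ^ (-(w - 2 * p b))))) * Zᵀ = 1 := by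
      rw [← hinv]
      simp only [Matrix.mul_assoc]
    refine ⟨(S * (Z.map (starRingEnd ℂ) * Matrix.diagonal (fun b => Complex.I ^ (-(w - 2 * p b)))))ᵀ, ?_⟩
    have h2 := congrArg Matrix.transpose h1
    rw [Matrix.transpose_mul, Matrix.transpose_transpose, Matrix.transpose_one] at h2
    exact h2
  have hYW : Y * (T * W) = 1 := by rw [← Matrix.mul_assoc, ← hZ, hW]
  have hTW : T * (W * Y) = 1 := by
    have h1 := mul_eq_one_comm.1 hYW
    rw [Matrix.mul_assoc] at h1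
    exact h1
  let _ : Invertible T := invertibleOfRightInverse T _ hTW
  have hbt : Matrix.BlockTriangular T (fun a => -p a) := by
    intro a b hab
    by_contra h1
    have := hT a b h1
    simp only at hab
    omega
  have hbt' := Matrix.blockTriangular_inv_of_blockTriangular hbt
  have hT' : ∀ a b, T⁻¹ a b ≠ 0 → p b ≤ p a := by
    intro a b hab
    by_contra h1
    exact hab (hbt' (by simp only; omega))
  have hY : Y = Z * T⁻¹ := by
    rw [hZ, Matrix.mul_assoc, Matrix.mul_inv_of_invertible, Matrix.mul_one]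
  have hZZ : Z = Z.map (starRingEnd ℂ) * M.map (starRingEnd ℂ) := by
    have h1 := congrArg (fun X : Matrix I I ℂ => X.map (starRingEnd ℂ)) hM
    have h2 : (Z.map (starRingEnd ℂ)).map (starRingEnd ℂ) = Z := by
      ext a b
      simp
    simp only [h2] at h1
    rw [Matrix.map_mul] at h1
    exact h1
  have hform : ∀ a b, (Zᵀ * S * Z) a b ≠ 0 → p a + p b = w := by
    intro a b hab
    have h1 : Zᵀ * S * Z = Matrix.diagonal (fun b => Complex.I ^ (w - 2 * p b)) * M.map (starRingEnd ℂ) := by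
      rw [← hS, Matrix.mul_assoc (Zᵀ * S), ← hZZ]
    rw [h1, Matrix.diagonal_mul, Matrix.map_apply] at hab
    refine hM' a b fun h2 => hab ?_
    rw [h2, map_zero, mul_zero]
  have h1 : Yᵀ * S * Y = (T⁻¹)ᵀ * (Zᵀ * S * Z) * T⁻¹ := by
    rw [hY, Matrix.transpose_mul]
    simp only [Matrix.mul_assoc]
  rw [h1, Matrix.mul_apply] at h
  obtain ⟨b, -, hb⟩ := Finset.exists_ne_zero_of_sum_ne_zero h
  have hb1 := hT' b d (right_ne_zero_of_mul hb)
  have hb2 := left_ne_zero_of_mul hb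
  rw [Matrix.mul_apply] at hb2
  obtain ⟨a, -, ha⟩ := Finset.exists_ne_zero_of_sum_ne_zero hb2
  have ha1 := hform a b (right_ne_zero_of_mul ha)
  have ha2 : p c ≤ p a := hT' a c (left_ne_zero_of_mul ha)
  omega

theorem rt_two (X Z : Matrix I I ℂ) (J : Fin 2 → I) :
    rt (fun a : Fin 2 → I => X (a 0) (a 1)) Z J = (Zᵀ * X * Z) (J 0) (J 1) := by
  classical
  rw [rt_apply, Matrix.mul_assoc, Matrix.mul_apply]
  rw [← (finTwoArrowEquiv I).symm.sum_comp, Fintype.sum_prod_type]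
  refine Finset.sum_congr rfl fun a _ => ?_
  rw [Matrix.mul_apply, Finset.mul_sum]
  refine Finset.sum_congr rfl fun b _ => ?_
  simp [Fin.prod_univ_two]
  ring

/-- the tensor of an endomorphism -/
theorem endo_tensor {p : I → ℤ} {w : ℤ} {S Y : Matrix I I ℂ} (hfr : Pool.Agent.V11273.PV.Frame p w S Y)
    {M N : Matrix I I ℂ} (hMN : M * Y = Y * N) (hN : ∀ a b, N a b ≠ 0 → p b ≤ p a) :
    Pool.Agent.V11273.PV.HodgeT p w Y fun a : Fin 2 → I => (Mᵀ * S) (a 0) (a 1) := by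
  classical
  intro J hJ
  rw [rt_two]
  have h1 : Yᵀ * (Mᵀ * S) * Y = Nᵀ * (Yᵀ * S * Y) := by
    have h2 : Yᵀ * Mᵀ = Nᵀ * Yᵀ := by rw [← Matrix.transpose_mul, hMN, Matrix.transpose_mul]
    calc Yᵀ * (Mᵀ * S) * Y = (Yᵀ * Mᵀ) * S * Y := by simp only [Matrix.mul_assoc]
      _ = _ := by rw [h2]; simp only [Matrix.mul_assoc]
  rw [h1]
  by_contra h2
  rw [Matrix.mul_apply] at h2
  obtain ⟨a, -, ha⟩ := Finset.exists_ne_zero_of_sum_ne_zero h2
  have h3 : p (J 0) ≤ p a := hN a (J 0) (left_ne_zero_of_mul ha)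
  have h4 := orth hfr a (J 1) (right_ne_zero_of_mul ha)
  rw [Fin.sum_univ_two] at hJ
  push_cast at hJ
  omega

/-- if the tensor of an endomorphism is fixed by an isometry, they commute -/
theorem endo_comm {S M g : Matrix I I ℂ} (hS : IsUnit S) (hgS : gᵀ * S * g = S)
    (h : rt (fun a : Fin 2 → I => (Mᵀ * S) (a 0) (a 1)) g = fun a : Fin 2 → I => (Mᵀ * S) (a 0) (a 1)) :
    g * M = M * g := by
  have h1 : gᵀ * (Mᵀ * S) * g = Mᵀ * S := by
    ext a b
    have h2 := congrFun h ![a, b]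
    rw [rt_two] at h2
    exact h2
  obtain ⟨u, rfl⟩ := hS
  have hg : IsUnit g := by
    have h3 : (u⁻¹ : (Matrix I I ℂ)ˣ) * (gᵀ * (u : Matrix I I ℂ)) * g = 1 := by
      rw [Matrix.mul_assoc, hgS, Units.inv_mul]
    have h4 := mul_eq_one_comm.1 h3
    exact ⟨⟨g, _, h4, h3⟩, rfl⟩
  obtain ⟨v, rfl⟩ := hg
  have h5 : ((v : Matrix I I ℂ)ᵀ * Mᵀ) * ((u : Matrix I I ℂ) * v) =
      (Mᵀ * (v : Matrix I I ℂ)ᵀ) * ((u : Matrix I I ℂ) * v) := by
    calc ((v : Matrix I I ℂ)ᵀ * Mᵀ) * ((u : Matrix I I ℂ) * v) = (v : Matrix I I ℂ)ᵀ * (Mᵀ * u) * v := by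
          simp only [Matrix.mul_assoc]
      _ = Mᵀ * ((v : Matrix I I ℂ)ᵀ * u * v) := by rw [h1, hgS]
      _ = _ := by simp only [Matrix.mul_assoc]
  have h6 : ((v : Matrix I I ℂ)ᵀ * Mᵀ) = (Mᵀ * (v : Matrix I I ℂ)ᵀ) := by
    have h7 : IsUnit ((u : Matrix I I ℂ) * v) := u.isUnit.mul v.isUnit
    exact h7.mul_right_cancel h5
  have h8 := congrArg Matrix.transpose h6
  rw [Matrix.transpose_mul, Matrix.transpose_mul, Matrix.transpose_transpose, Matrix.transpose_transpose] at h8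
  exact h8.symm

end endo

section one

/-- one family: the indices -/
def e1' (n : ℕ) : IG (Fin 0) (fun _ : Fin 1 => n) ≃ Fin n where
  toFun := Sum.elim Fin.elim0 fun v => v.2
  invFun := fun a => Sum.inr ⟨0, a⟩
  left_inv := by
    rintro (a | ⟨i, a⟩)
    · exact a.elim0
    · have : i = 0 := Subsingleton.elim _ _
      subst this
      rfl
  right_inv := fun _ => rfl

theorem EG_one' {n : ℕ} (C₀ : Matrix (Fin 0) (Fin 0) ℂ) (Z : Matrix (Fin n) (Fin n) ℂ) :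
    EG C₀ (fun _ : Fin 1 => Z) = Z.submatrix (e1' n) (e1' n) := by
  ext a b
  rcases a with a | ⟨i, a⟩
  · exact a.elim0
  rcases b with b | ⟨j, b⟩
  · exact b.elim0
  have hi : i = 0 := Subsingleton.elim _ _
  have hj : j = 0 := Subsingleton.elim _ _
  subst hi
  subst hj
  unfold EG
  rw [fromBlocks_apply₂₂, blockDiagonal'_apply_eq]
  rfl

theorem rt_reindex {I I' : Type} [Fintype I] [DecidableEq I] [Fintype I'] [DecidableEq I'] (e : I ≃ I') {m : ℕ}
    (γ : (Fin m → I') → ℂ) (Z : Matrix I' I' ℂ) (J : Fin m → I) :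
    rt (fun a : Fin m → I => γ fun i => e (a i)) (Z.submatrix e e) J = rt γ Z fun i => e (J i) := by
  rw [rt_apply, rt_apply]
  refine Fintype.sum_equiv (Equiv.arrowCongr (Equiv.refl (Fin m)) e) _ _ fun a => ?_
  rfl

/-- **Hodge tensors of all sizes at almost all integral fibres of one family.** -/
theorem hodge_one (D e ρ n : ℕ) (h : Fin ρ → ℚ⟦X⟧) (hF : ∀ δ, Fam δ h) :
    ∃ c C : ℝ, 0 < c ∧ 0 ≤ C ∧ ∀ P : Fin n → Fin n → MvPolynomial (Option (Fin ρ)) ℂ,
    (∀ a b, (P a b).totalDegree ≤ e) →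
    ∀ (p : Fin n → ℤ) (w : ℤ) (S : Matrix (Fin n) (Fin n) ℂ) (Γ : Subgroup (Matrix (Fin n) (Fin n) ℂ)ˣ), Γ ≤ Gs h P →
      (∀ P' : MvPolynomial (Fin n × Fin n) ℂ,
        (∀ g ∈ Γ, MvPolynomial.eval (fun v => (g : Matrix (Fin n) (Fin n) ℂ) v.1 v.2) P' = 0) →
        ∀ g ∈ Gs h P, MvPolynomial.eval (fun v => (g : Matrix (Fin n) (Fin n) ℂ) v.1 v.2) P' = 0) →
      (∀ g ∈ Γ, ∀ a b, ∃ m : ℤ, (g : Matrix (Fin n) (Fin n) ℂ) a b = m) →
      (∀ g ∈ Γ, (g : Matrix (Fin n) (Fin n) ℂ)ᵀ * S * (g : Matrix (Fin n) (Fin n) ℂ) = S) →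
    ∀ (x : ℕ) (N : ℕ), 1 ≤ N → ∀ E : Finset ℕ, (∀ t ∈ E, (x < t ∧ t ≤ x + N) ∧
      Pool.Agent.V11273.PV.Frame p w S (pM h P (t : ℝ)) ∧ ∃ m ≤ D, ∃ γ : (Fin m → Fin n) → ℤ,
        Pool.Agent.V11273.PV.HodgeT p w (pM h P (t : ℝ)) (fun a => (γ a : ℂ)) ∧
        ∃ g ∈ IdComp (Gs h P), rt (fun a => (γ a : ℂ)) (g : Matrix (Fin n) (Fin n) ℂ) ≠ fun a => (γ a : ℂ)) →
    (E.card : ℝ) ≤ C * (1 + N / ((x : ℝ) + N) ^ c) := by
  classical
  obtain ⟨c, C, hc, hC, hmain⟩ := hodge_main 1 D e 0 (fun _ => ρ) (fun _ => n) (fun _ => h) (fun _ => hF)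
  refine ⟨c, C, hc, hC, fun P hP p w S Γ hΓ hd hint hpres x N hN E hE => ?_⟩
  have h1 := hmain (fun _ => P) (fun _ => hP) (fun _ => 0) 0 0 0
    ⟨0, 0, 0, Subsingleton.elim _ _, fun a => a.elim0, Subsingleton.elim _ _, fun a => a.elim0, Subsingleton.elim _ _⟩
    (fun _ => p) (fun _ => w) (fun _ => S) (fun _ => Γ) (fun _ => hΓ) (fun _ => hd) (fun _ => hint) (fun _ => hpres)
    (fun _ => x) N hN (E.image fun t _ => t) (by
      intro t ht
      obtain ⟨t, ht', rfl⟩ := Finset.mem_image.1 ht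
      obtain ⟨hbox, hfr, m, hm, γ, hγ, g, hg, hne⟩ := hE t ht'
      refine ⟨fun _ => hbox, fun _ => hfr, m, hm, fun a => γ fun i => e1' n (a i), ?_, fun _ => g, fun _ => hg, ?_⟩
      · intro J hJ
        rw [EG_one']
        refine (rt_reindex (e1' n) (fun a => (γ a : ℂ)) _ J).trans (hγ _ ?_)
        have h2 : ∀ a : IG (Fin 0) (fun _ : Fin 1 => n), (Sum.elim (fun _ => (0 : ℤ)) fun v : Σ _ : Fin 1, Fin n => w) a = w := by
          rintro (a | a)
          · exact a.elim0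
          · rfl
        have h3 : ∀ a : IG (Fin 0) (fun _ : Fin 1 => n), (Sum.elim (fun _ => (0 : ℤ)) fun v : Σ _ : Fin 1, Fin n => p v.2) a =
            p (e1' n a) := by
          rintro (a | a)
          · exact a.elim0
          · rfl
        have h4 : ∑ _i : Fin m, w < 2 * ∑ i, p (e1' n (J i)) := by
          have h5 := hJ
          simp only [h2, h3] at h5
          exact h5
        rw [Finset.sum_const, Finset.card_univ, Fintype.card_fin, nsmul_eq_mul] at h4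
        exact h4
      · intro heq
        apply hne
        funext J
        rw [EG_one'] at heq
        have h5 := congrFun heq fun i => (e1' n).symm (J i)
        have h6 := rt_reindex (e1' n) (fun a => (γ a : ℂ)) (g : Matrix (Fin n) (Fin n) ℂ) fun i => (e1' n).symm (J i)
        simp only [Equiv.apply_symm_apply] at h5 h6
        exact h6.symm.trans h5)
  rw [Finset.card_image_of_injective _ (fun a b hab => congrFun hab 0)] at h1
  simpa using h1

/-- **Endomorphisms of the Hodge structures at almost all integral fibres.** -/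
theorem endo_one (e ρ n : ℕ) (h : Fin ρ → ℚ⟦X⟧) (hF : ∀ δ, Fam δ h) :
    ∃ c C : ℝ, 0 < c ∧ 0 ≤ C ∧ ∀ P : Fin n → Fin n → MvPolynomial (Option (Fin ρ)) ℂ,
    (∀ a b, (P a b).totalDegree ≤ e) →
    ∀ (p : Fin n → ℤ) (w : ℤ) (S : Matrix (Fin n) (Fin n) ℤ) (Γ : Subgroup (Matrix (Fin n) (Fin n) ℂ)ˣ), Γ ≤ Gs h P →
      (∀ P' : MvPolynomial (Fin n × Fin n) ℂ,
        (∀ g ∈ Γ, MvPolynomial.eval (fun v => (g : Matrix (Fin n) (Fin n) ℂ) v.1 v.2) P' = 0) →
        ∀ g ∈ Gs h P, MvPolynomial.eval (fun v => (g : Matrix (Fin n) (Fin n) ℂ) v.1 v.2) P' = 0) →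
      (∀ g ∈ Γ, ∀ a b, ∃ m : ℤ, (g : Matrix (Fin n) (Fin n) ℂ) a b = m) →
      (∀ g ∈ Γ, (g : Matrix (Fin n) (Fin n) ℂ)ᵀ * S.map (Int.cast : ℤ → ℂ) * (g : Matrix (Fin n) (Fin n) ℂ) =
        S.map (Int.cast : ℤ → ℂ)) →
    ∀ (x : ℕ) (N : ℕ), 1 ≤ N → ∀ E : Finset ℕ, (∀ t ∈ E, (x < t ∧ t ≤ x + N) ∧
      Pool.Agent.V11273.PV.Frame p w (S.map (Int.cast : ℤ → ℂ)) (pM h P (t : ℝ)) ∧ ∃ M : Matrix (Fin n) (Fin n) ℤ,
        (∃ N : Matrix (Fin n) (Fin n) ℂ, M.map (Int.cast : ℤ → ℂ) * pM h P (t : ℝ) = pM h P (t : ℝ) * N ∧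
          ∀ a b, N a b ≠ 0 → p b ≤ p a) ∧
        ∃ g ∈ IdComp (Gs h P), (g : Matrix (Fin n) (Fin n) ℂ) * M.map (Int.cast : ℤ → ℂ) ≠
          M.map (Int.cast : ℤ → ℂ) * (g : Matrix (Fin n) (Fin n) ℂ)) →
    (E.card : ℝ) ≤ C * (1 + N / ((x : ℝ) + N) ^ c) := by
  classical
  obtain ⟨c, C, hc, hC, hmain⟩ := hodge_one 2 e ρ n h hF
  refine ⟨c, C, hc, hC, fun P hP p w S Γ hΓ hd hint hpres x N hN E hE =>
    hmain P hP p w _ Γ hΓ hd hint hpres x N hN E fun t ht => ?_⟩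
  obtain ⟨hbox, hfr, M, ⟨N', hN1, hN2⟩, g, hg, hne⟩ := hE t ht
  have hcast : ∀ a : Fin 2 → Fin n, (((Mᵀ * S) (a 0) (a 1) : ℤ) : ℂ) =
      ((M.map (Int.cast : ℤ → ℂ))ᵀ * S.map (Int.cast : ℤ → ℂ)) (a 0) (a 1) := by
    intro a
    rw [Matrix.mul_apply, Matrix.mul_apply]
    push_cast
    rfl
  have hcast' : (fun a : Fin 2 → Fin n => (((Mᵀ * S) (a 0) (a 1) : ℤ) : ℂ)) = fun a : Fin 2 → Fin n =>
      ((M.map (Int.cast : ℤ → ℂ))ᵀ * S.map (Int.cast : ℤ → ℂ)) (a 0) (a 1) := funext hcast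
  refine ⟨hbox, hfr, 2, le_rfl, fun a => (Mᵀ * S) (a 0) (a 1), ?_, g, hg, ?_⟩
  · rw [hcast']
    exact endo_tensor hfr hN1 hN2
  · rw [hcast']
    intro heq
    apply hne
    have hgS : (g : Matrix (Fin n) (Fin n) ℂ)ᵀ * S.map (Int.cast : ℤ → ℂ) * (g : Matrix (Fin n) (Fin n) ℂ) =
        S.map (Int.cast : ℤ → ℂ) := by
      have key : ∀ a b, MvPolynomial.eval (fun v => (g : Matrix (Fin n) (Fin n) ℂ) v.1 v.2)
          (apol (fun c : Fin 2 → Fin n => S.map (Int.cast : ℤ → ℂ) (c 0) (c 1)) ![a, b] -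
            MvPolynomial.C (S.map (Int.cast : ℤ → ℂ) a b)) = 0 := by
        intro a b
        refine hd _ (fun g' hg' => ?_) g hg.1
        rw [map_sub, apol_eval, MvPolynomial.eval_C, rt_two, hpres g' hg']
        exact sub_self _
      ext a b
      have h1 := key a b
      rw [map_sub, apol_eval, MvPolynomial.eval_C, rt_two] at h1
      exact sub_eq_zero.1 h1
    refine endo_comm ?_ hgS heq
    obtain ⟨Z, T, M, hZ, hT, hM, hM', hS⟩ := hfr
    have hinv := Pool.Agent.V11273.PV.frame_inv hS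
    exact ⟨⟨_, _, hinv, mul_eq_one_comm.1 hinv⟩, rfl⟩

end one

end Pool.Agent.V11273.GH
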