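import Pool.Agent.V11273.GH.I2
import Pool.Agent.V11273.GH.B2

/-!
# Hodge tensors of almost all integral fibres of families with symplectic Galois groups
-/

set_option autoImplicit false
set_option linter.unusedSectionVars false

open Matrix Module PowerSeries Filter

namespace Pool.Agent.V11273.GH

open Pool.Agent.TH127.PT Pool.Agent.Y123.ST Pool.Agent.Y123.SR Pool.Agent.Y113 Pool.Agent.Y113.GG Pool.Agent.Y120.R
  Pool.Agent.Y123.GN
open Pool.Agent.V11273.PV (rt rt_apply IdComp ClosedIn)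

section sum

variable {k : ℕ} {ρ n : Fin k → ℕ}

/-- the indices without a fixed part -/
def e0' (n : Fin k → ℕ) : IG (Fin 0) n ≃ Σ i, Fin (n i) := Equiv.emptySum (Fin 0) _

theorem EG_zero' (C₀ : Matrix (Fin 0) (Fin 0) ℂ) (Z : ∀ i, Matrix (Fin (n i)) (Fin (n i)) ℂ) :
    EG C₀ Z = (blockDiagonal' Z).submatrix (e0' n) (e0' n) := by
  ext a b
  rcases a with a | a
  · exact a.elim0
  rcases b with b | b
  · exact b.elim0
  rfl

/-- **Hodge tensors of all sizes of the sums of almost all integral fibres.** -/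
theorem hodge_sum (k D e : ℕ) (ρ n : Fin k → ℕ) (h : ∀ i, Fin (ρ i) → ℚ⟦X⟧) (hF : ∀ i δ, Fam δ (h i)) :
    ∃ c C : ℝ, 0 < c ∧ 0 ≤ C ∧ ∀ P : ∀ i, Fin (n i) → Fin (n i) → MvPolynomial (Option (Fin (ρ i))) ℂ,
    (∀ i a b, (P i a b).totalDegree ≤ e) →
    ∀ (p : ∀ i, Fin (n i) → ℤ) (w : Fin k → ℤ) (S : ∀ i, Matrix (Fin (n i)) (Fin (n i)) ℂ)
      (Γ : ∀ i, Subgroup (Matrix (Fin (n i)) (Fin (n i)) ℂ)ˣ), (∀ i, Γ i ≤ Gs (h i) (P i)) →
      (∀ i, ∀ P' : MvPolynomial (Fin (n i) × Fin (n i)) ℂ,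
        (∀ g ∈ Γ i, MvPolynomial.eval (fun v => (g : Matrix (Fin (n i)) (Fin (n i)) ℂ) v.1 v.2) P' = 0) →
        ∀ g ∈ Gs (h i) (P i), MvPolynomial.eval (fun v => (g : Matrix (Fin (n i)) (Fin (n i)) ℂ) v.1 v.2) P' = 0) →
      (∀ i, ∀ g ∈ Γ i, ∀ a b, ∃ m : ℤ, (g : Matrix (Fin (n i)) (Fin (n i)) ℂ) a b = m) →
      (∀ i, ∀ g ∈ Γ i, (g : Matrix (Fin (n i)) (Fin (n i)) ℂ)ᵀ * S i * (g : Matrix (Fin (n i)) (Fin (n i)) ℂ) = S i) →
    ∀ (x : Fin k → ℕ) (N : ℕ), 1 ≤ N → ∀ E : Finset (Fin k → ℕ), (∀ t ∈ E, (∀ i, x i < t i ∧ t i ≤ x i + N) ∧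
      (∀ i, Pool.Agent.V11273.PV.Frame (p i) (w i) (S i) (pM (h i) (P i) (t i : ℝ))) ∧ ∃ m ≤ D,
        ∃ γ : (Fin m → Σ i, Fin (n i)) → ℤ,
          (∀ J : Fin m → Σ i, Fin (n i), ∑ i, w (J i).1 < 2 * ∑ i, p (J i).1 (J i).2 →
            rt (fun a => (γ a : ℂ)) (blockDiagonal' fun i => pM (h i) (P i) (t i : ℝ)) J = 0) ∧
          ∃ g : ∀ i, (Matrix (Fin (n i)) (Fin (n i)) ℂ)ˣ, (∀ i, g i ∈ IdComp (Gs (h i) (P i))) ∧
            rt (fun a => (γ a : ℂ)) (blockDiagonal' fun i => (g i : Matrix (Fin (n i)) (Fin (n i)) ℂ)) ≠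
              fun a => (γ a : ℂ)) →
    (E.card : ℝ) ≤ C * (N : ℝ) ^ (k - 1) * ∑ i, (1 + N / ((x i : ℝ) + N) ^ c) := by
  classical
  obtain ⟨c, C, hc, hC, hmain⟩ := hodge_main k D e 0 ρ n h hF
  refine ⟨c, C, hc, hC, fun P hP p w S Γ hΓ hd hint hpres x N hN E hE => ?_⟩
  refine hmain P hP (fun _ => 0) 0 0 0
    ⟨0, 0, 0, Subsingleton.elim _ _, fun a => a.elim0, Subsingleton.elim _ _, fun a => a.elim0, Subsingleton.elim _ _⟩
    p w S Γ hΓ hd hint hpres x N hN E fun t ht => ?_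
  obtain ⟨hbox, hfr, m, hm, γ, hγ, g, hg, hne⟩ := hE t ht
  refine ⟨hbox, hfr, m, hm, fun a => γ fun i => e0' n (a i), ?_, g, hg, ?_⟩
  · intro J hJ
    rw [EG_zero']
    refine (rt_reindex (e0' n) (fun a => (γ a : ℂ)) _ J).trans (hγ _ ?_)
    have h2 : ∀ a : IG (Fin 0) n, (Sum.elim (fun _ => (0 : ℤ)) fun v : Σ i, Fin (n i) => w v.1) a = w (e0' n a).1 := by
      rintro (a | a)
      · exact a.elim0
      · rfl
    have h3 : ∀ a : IG (Fin 0) n, (Sum.elim (fun _ => (0 : ℤ)) fun v : Σ i, Fin (n i) => p v.1 v.2) a =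
        p (e0' n a).1 (e0' n a).2 := by
      rintro (a | a)
      · exact a.elim0
      · rfl
    have h5 := hJ
    simp only [h2, h3] at h5
    exact h5
  · intro heq
    apply hne
    funext J
    rw [EG_zero'] at heq
    have h5 := congrFun heq fun i => (e0' n).symm (J i)
    have h6 := rt_reindex (e0' n) (fun a => (γ a : ℂ))
      (blockDiagonal' fun i => (g i : Matrix (Fin (n i)) (Fin (n i)) ℂ)) fun i => (e0' n).symm (J i)
    simp only [Equiv.apply_symm_apply] at h5 h6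
    exact h6.symm.trans h5

end sum

section symplectic

variable {k : ℕ} {g : Fin k → ℕ}

theorem rn_pow {g : ℕ} (u : Fin g ⊕ Fin g → ℂ) (t : ℂ) (N : ℕ) : rn u t ^ N = rn u (N * t) := by
  unfold rn
  rw [← map_pow, ru_pow]

/-- the rank one elements are in the identity component -/
theorem rn_idc {g : ℕ} {𝒢 : Subgroup (GL (Fin (g + g)) ℂ)} (h : GB (Jn ℂ g) ≤ 𝒢) (u : Fin g ⊕ Fin g → ℂ)
    (t : ℂ) : rn u t ∈ IdComp 𝒢 := by
  have hG : ∀ t, rn u t ∈ 𝒢 := fun t => h (rn_mem u t)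
  refine ⟨hG t, fun H hH _ => ?_⟩
  have hn : H.normalCore.index ≠ 0 := (Subgroup.finiteIndex_normalCore (H := H)).index_ne_zero
  have h1 := Subgroup.pow_index_mem H.normalCore (⟨rn u (((H.normalCore.index : ℕ) : ℂ)⁻¹ * t), hG _⟩ : 𝒢)
  have h2 : (⟨rn u (((H.normalCore.index : ℕ) : ℂ)⁻¹ * t), hG _⟩ : 𝒢) ^ H.normalCore.index = ⟨rn u t, hG t⟩ := by
    apply Subtype.ext
    rw [Subgroup.coe_pow]
    show rn u (((H.normalCore.index : ℕ) : ℂ)⁻¹ * t) ^ H.normalCore.index = rn u t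
    rw [rn_pow]
    congr 1
    rw [← mul_assoc, mul_inv_cancel₀ (by exact_mod_cast hn), one_mul]
  rw [h2] at h1
  exact H.normalCore_le h1

/-- the transpose of an element of rank one -/
theorem ru_transpose {l : Type} [Fintype l] [DecidableEq l] (w : l ⊕ l → ℂ) (t : ℂ) :
    (1 + (-t) • (Matrix.J l ℂ * vecMulVec (Matrix.J l ℂ *ᵥ w) (Matrix.J l ℂ *ᵥ w)))ᵀ =
      1 + t • (Matrix.J l ℂ * vecMulVec w w) := by
  have hJt : (Matrix.J l ℂ)ᵀ = -Matrix.J l ℂ := Matrix.J_transpose l ℂ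
  have hJJ : Matrix.J l ℂ * Matrix.J l ℂ = -1 := Matrix.J_squared l ℂ
  have h1 : (Matrix.J l ℂ * vecMulVec (Matrix.J l ℂ *ᵥ w) (Matrix.J l ℂ *ᵥ w))ᵀ =
      -(Matrix.J l ℂ * vecMulVec w w) := by
    rw [mul_vecMulVec, mul_vecMulVec, transpose_vecMulVec, Matrix.mulVec_mulVec, hJJ, Matrix.neg_mulVec,
      Matrix.one_mulVec]
    ext a b
    rw [vecMulVec_apply, Matrix.neg_apply, vecMulVec_apply, Pi.neg_apply]
    ring
  rw [Matrix.transpose_add, Matrix.transpose_one, Matrix.transpose_smul, h1, smul_neg, neg_smul, neg_neg]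

/-- **Invariants of products of symplectic groups.** -/
theorem symp_inv {m : ℕ} {𝒢 : ∀ i, Subgroup (GL (Fin (g i + g i)) ℂ)} (hSp : ∀ i, GB (Jn ℂ (g i)) ≤ 𝒢 i)
    {γ : (Fin (2 * m) → Σ i, Fin (g i + g i)) → ℚ}
    (hfix : ∀ a : ∀ i, GL (Fin (g i + g i)) ℂ, (∀ i, a i ∈ IdComp (𝒢 i)) →
      rt (fun I => (γ I : ℂ)) (blockDiagonal' fun i => (a i : Matrix (Fin (g i + g i)) (Fin (g i + g i)) ℂ)) =
        fun I => (γ I : ℂ)) : γ ∈ MatN g m := by
  classical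
  let γ' : (Fin (2 * m) → RR fun i => Fin (g i)) → ℚ := fun I => γ fun p => eqv g (I p)
  have hinv : RkInv fun I => (γ' I : ℂ) := by
    intro w j₀ hw t' I
    have h1 := congrFun (hfix (fun i => rn (Matrix.J (Fin (g i)) ℂ *ᵥ fun a => w ⟨i, a⟩) (-t')) fun i =>
      rn_idc (hSp i) _ _) fun p => eqv g (I p)
    rw [rt_apply] at h1
    refine Eq.trans ?_ h1
    refine Fintype.sum_equiv (Equiv.arrowCongr (Equiv.refl _) (eqv g)) _ _ fun J => ?_
    have h2 : ∀ p, (Equiv.arrowCongr (Equiv.refl (Fin (2 * m))) (eqv g)) J p = eqv g (J p) := fun p => rfl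
    rw [mul_comm]
    refine congrArg₂ (· * ·) rfl ?_
    refine Finset.prod_congr rfl fun p _ => ?_
    rw [h2, one_block hw]
    have h3 := bd_eqv (fun i => 1 + (-t') • (Matrix.J (Fin (g i)) ℂ * vecMulVec (Matrix.J (Fin (g i)) ℂ *ᵥ fun a => w ⟨i, a⟩)
      (Matrix.J (Fin (g i)) ℂ *ᵥ fun a => w ⟨i, a⟩))) (J p) (I p)
    refine Eq.trans ?_ h3.symm
    have h4 : (fun j => 1 + t' • (Matrix.J (Fin (g j)) ℂ * vecMulVec (fun a => w ⟨j, a⟩) fun a => w ⟨j, a⟩)) =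
        fun i => (1 + (-t') • (Matrix.J (Fin (g i)) ℂ * vecMulVec (Matrix.J (Fin (g i)) ℂ *ᵥ fun a => w ⟨i, a⟩)
          (Matrix.J (Fin (g i)) ℂ *ᵥ fun a => w ⟨i, a⟩)))ᵀ := by
      funext i
      exact (ru_transpose _ _).symm
    rw [h4, ← Matrix.blockDiagonal'_transpose, Matrix.transpose_apply]
  have h1 := mem_matchings hinv
  let L : ((Fin (2 * m) → RR fun i => Fin (g i)) → ℚ) →ₗ[ℚ] ((Fin (2 * m) → Σ i, Fin (g i + g i)) → ℚ) :=
    { toFun := fun F I => F fun p => (eqv g).symm (I p)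
      map_add' := fun _ _ => rfl
      map_smul' := fun _ _ => rfl }
  have hL : L γ' = γ := by
    funext I
    show γ (fun p => eqv g ((eqv g).symm (I p))) = γ I
    congr 1
    funext p
    exact Equiv.apply_symm_apply _ _
  rw [← hL]
  have h2 := Submodule.mem_map_of_mem (f := L) h1
  rw [Submodule.map_span] at h2
  refine Submodule.span_mono ?_ h2
  rintro _ ⟨F, ⟨e, c, hF⟩, rfl⟩
  refine ⟨e, c, fun I => ?_⟩
  show F (fun p => (eqv g).symm (I p)) = _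
  rw [hF]
  refine Finset.prod_congr rfl fun s _ => ?_
  have h3 : ∀ x : Σ i, Fin (g i + g i), ((eqv g).symm x).1 = x.1 := fun x => rfl
  rw [h3]
  congr 1
  have h4 := bd_eqv (fun i => Matrix.J (Fin (g i)) ℚ) ((eqv g).symm (I (e (s, 0)))) ((eqv g).symm (I (e (s, 1))))
  rw [Equiv.apply_symm_apply, Equiv.apply_symm_apply] at h4
  exact h4.symm

end symplectic

end Pool.Agent.V11273.GH
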