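import Pool.Agent.V11273.GH.I4

/-!
# Products of polarizations are semi-invariant under similitudes
-/

set_option autoImplicit false
set_option linter.unusedSectionVars false

open Matrix

namespace Pool.Agent.V11273.GH

/-- a tensor, with coefficients in a field, times the tensor power of a matrix -/
def act {K I : Type} [Field K] [Fintype I] {q : ℕ} (γ : (Fin q → I) → K) (R : Matrix I I K) (J : Fin q → I) : K :=
  ∑ a, γ a * ∏ i, R (a i) (J i)

/-- the action on a product of forms over a matching -/
theorem act_matching {K I : Type} [Field K] [Fintype I] [DecidableEq I] {m : ℕ} (e : Fin m × Fin 2 ≃ Fin (2 * m))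
    (F : Fin m → Matrix I I K) (R : Matrix I I K) (J : Fin (2 * m) → I) :
    act (fun a => ∏ s, F s (a (e (s, 0))) (a (e (s, 1)))) R J =
      ∏ s, (Rᵀ * F s * R) (J (e (s, 0))) (J (e (s, 1))) := by
  classical
  have h1 : ∀ s, (Rᵀ * F s * R) (J (e (s, 0))) (J (e (s, 1))) =
      ∑ b : I × I, F s b.1 b.2 * (R b.1 (J (e (s, 0))) * R b.2 (J (e (s, 1)))) := by
    intro s
    rw [Matrix.mul_assoc, Matrix.mul_apply, Fintype.sum_prod_type]
    refine Finset.sum_congr rfl fun a _ => ?_
    rw [Matrix.mul_apply, Finset.mul_sum]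
    refine Finset.sum_congr rfl fun b _ => ?_
    rw [Matrix.transpose_apply]
    ring
  rw [Finset.prod_congr rfl fun s _ => h1 s, Finset.prod_univ_sum]
  unfold act
  let φ : (Fin (2 * m) → I) ≃ (Fin m → I × I) :=
    { toFun := fun a s => (a (e (s, 0)), a (e (s, 1)))
      invFun := fun b i => if (e.symm i).2 = 0 then (b (e.symm i).1).1 else (b (e.symm i).1).2
      left_inv := by
        intro a
        funext i
        obtain ⟨⟨s, c⟩, rfl⟩ := e.surjective i
        simp only [Equiv.symm_apply_apply]
        fin_cases c <;> simp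
      right_inv := by
        intro b
        funext s
        simp }
  rw [Fintype.piFinset_univ]
  refine Fintype.sum_equiv φ _ _ fun a => ?_
  have h2 : ∏ i, R (a i) (J i) = ∏ s, (R (a (e (s, 0))) (J (e (s, 0))) * R (a (e (s, 1))) (J (e (s, 1)))) := by
    rw [← e.prod_comp, Fintype.prod_prod_type]
    refine Finset.prod_congr rfl fun s _ => ?_
    rw [Fin.prod_univ_two]
  rw [h2, ← Finset.prod_mul_distrib]
  rfl

variable {k : ℕ} {g : Fin k → ℕ}

/-- one symplectic form -/
noncomputable def oneForm (K : Type) [Field K] (g : Fin k → ℕ) (c : Fin k) :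
    Matrix (Σ i, Fin (g i + g i)) (Σ i, Fin (g i + g i)) K :=
  Matrix.blockDiagonal' fun i => if i = c then Jn K (g i) else 0

theorem Jn_cast {K : Type} [Field K] [CharZero K] (g : ℕ) (a b : Fin (g + g)) :
    ((Jn ℚ g a b : ℚ) : K) = Jn K g a b := by
  unfold Jn
  rw [Matrix.reindex_apply, Matrix.reindex_apply, Matrix.submatrix_apply, Matrix.submatrix_apply]
  rcases finSumFinEquiv.symm a with u | u <;> rcases finSumFinEquiv.symm b with v | v <;>
    simp [Matrix.J, Matrix.one_apply] <;> split_ifs <;> simp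

theorem oneForm_cast {K : Type} [Field K] [CharZero K] (c : Fin k) (a b : Σ i, Fin (g i + g i)) :
    ((if a.1 = c then (Matrix.blockDiagonal' (fun i => Jn ℚ (g i)) :
      Matrix (Σ i, Fin (g i + g i)) (Σ i, Fin (g i + g i)) ℚ) a b else 0 : ℚ) : K) = oneForm K g c a b := by
  obtain ⟨i, a⟩ := a
  obtain ⟨j, b⟩ := b
  unfold oneForm
  by_cases h : i = j
  · subst h
    rw [Matrix.blockDiagonal'_apply_eq, Matrix.blockDiagonal'_apply_eq]
    by_cases hi : i = c
    · simp only [hi, if_true]
      subst hi
      exact Jn_cast _ _ _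
    · simp [hi]
  · rw [Matrix.blockDiagonal'_apply_ne _ _ _ h, Matrix.blockDiagonal'_apply_ne _ _ _ h]
    split_ifs <;> simp

theorem oneForm_sim {K : Type} [Field K] {R : ∀ i, Matrix (Fin (g i + g i)) (Fin (g i + g i)) K} {l : K}
    (hR : ∀ i, (R i)ᵀ * Jn K (g i) * R i = l • Jn K (g i)) (c : Fin k) :
    (Matrix.blockDiagonal' R)ᵀ * oneForm K g c * Matrix.blockDiagonal' R = l • oneForm K g c := by
  unfold oneForm
  rw [Matrix.blockDiagonal'_transpose, ← Matrix.blockDiagonal'_mul, ← Matrix.blockDiagonal'_mul,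
    ← Matrix.blockDiagonal'_smul]
  congr 1
  funext i
  by_cases hi : i = c
  · simp only [hi, if_true, Pi.smul_apply]
    subst hi
    exact hR _
  · simp [hi]

/-- **Products of polarizations are semi-invariant under similitudes.** -/
theorem similitude {K : Type} [Field K] [CharZero K] {m : ℕ} {γ : (Fin (2 * m) → Σ i, Fin (g i + g i)) → ℚ}
    (hγ : γ ∈ MatN g m) {R : ∀ i, Matrix (Fin (g i + g i)) (Fin (g i + g i)) K} {l : K}
    (hR : ∀ i, (R i)ᵀ * Jn K (g i) * R i = l • Jn K (g i)) (J : Fin (2 * m) → Σ i, Fin (g i + g i)) :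
    act (fun a => (γ a : K)) (Matrix.blockDiagonal' R) J = l ^ m * (γ J : K) := by
  unfold MatN at hγ
  induction hγ using Submodule.span_induction with
  | mem F hF =>
    obtain ⟨e, c, hF⟩ := hF
    have h1 : (fun a => (F a : K)) = fun a => ∏ s, oneForm K g (c s) (a (e (s, 0))) (a (e (s, 1))) := by
      funext a
      rw [hF, Rat.cast_prod]
      exact Finset.prod_congr rfl fun s _ => oneForm_cast _ _ _
    have h2 : (F J : K) = ∏ s, oneForm K g (c s) (J (e (s, 0))) (J (e (s, 1))) := congrFun h1 J
    rw [h1, h2, act_matching]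
    simp only [oneForm_sim hR, Matrix.smul_apply, smul_eq_mul]
    rw [Finset.prod_mul_distrib, Finset.prod_const, Finset.card_univ, Fintype.card_fin]
  | zero => simp [act]
  | add x y _ _ hx hy =>
    have h1 : act (fun a => ((x + y) a : K)) (Matrix.blockDiagonal' R) J =
        act (fun a => (x a : K)) (Matrix.blockDiagonal' R) J + act (fun a => (y a : K)) (Matrix.blockDiagonal' R) J := by
      unfold act
      rw [← Finset.sum_add_distrib]
      refine Finset.sum_congr rfl fun a _ => ?_
      change (((x a + y a : ℚ)) : K) * _ = (x a : K) * _ + (y a : K) * _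
      rw [Rat.cast_add, add_mul]
    rw [h1, hx, hy, Pi.add_apply, Rat.cast_add, mul_add]
  | smul r x _ hx =>
    have h1 : act (fun a => ((r • x) a : K)) (Matrix.blockDiagonal' R) J =
        (r : K) * act (fun a => (x a : K)) (Matrix.blockDiagonal' R) J := by
      unfold act
      rw [Finset.mul_sum]
      refine Finset.sum_congr rfl fun a _ => ?_
      change (((r * x a : ℚ)) : K) * _ = (r : K) * ((x a : K) * _)
      rw [Rat.cast_mul, mul_assoc]
    rw [h1, hx, Pi.smul_apply, smul_eq_mul, Rat.cast_mul]
    ring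

end Pool.Agent.V11273.GH
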